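import Mathlib
import Pool.Agent.W793.YM.Char

/-!
# Conditional expectations in lattice gauge theory and the variance of sums of observables of
# separated blocks
-/

open MeasureTheory Matrix Filter
open scoped Matrix.Norms.Frobenius Topology
open Pool.Agent.H906R3.YM hiding Pl
open Pool.Agent.W793.YM

namespace Pool.Agent.H31YM

set_option linter.unusedSectionVars false
set_option linter.unusedVariables false

noncomputable section

section mix

variable {E : Type*} [Fintype E] [DecidableEq E] {G : Type*} [Group G] [TopologicalSpace G]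

/-- the configuration `V` in `p`, the configuration `U` elsewhere -/
def mix (p : E → Prop) [DecidablePred p] (U V : E → G) : E → G := fun e => if p e then V e else U e

variable {p : E → Prop} [DecidablePred p]

lemma mix_pos {U V : E → G} {e : E} (h : p e) : mix p U V e = V e := if_pos h

lemma mix_neg {U V : E → G} {e : E} (h : ¬p e) : mix p U V e = U e := if_neg h

lemma mix_congr {U U' : E → G} (h : ∀ e, ¬p e → U e = U' e) (V : E → G) :
    mix p U V = mix p U' V := by
  funext e
  by_cases he : p e
  · rw [mix_pos he, mix_pos he]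
  · rw [mix_neg he, mix_neg he, h e he]

lemma mix_dep {α : Type*} {h : (E → G) → α} (hh : Dep (fun e => ¬p e) h) (U V : E → G) :
    h (mix p U V) = h U := hh _ _ fun e he => mix_neg he

lemma mix_cont : Continuous fun z : (E → G) × (E → G) => mix p z.1 z.2 := by
  refine continuous_pi fun e => ?_
  unfold mix
  by_cases he : p e
  · simp only [he, if_true]
    exact (continuous_apply e).comp continuous_snd
  · simp only [he, if_false]
    exact (continuous_apply e).comp continuous_fst

variable [IsTopologicalGroup G] [CompactSpace G] [SecondCountableTopology G]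
  [MeasurableSpace G] [BorelSpace G] (μ : Measure G) [IsProbabilityMeasure μ]

lemma mix_int_cont {F : (E → G) → ℝ} (hF : Continuous F) :
    Continuous fun U => ∫ V, F (mix p U V) ∂(ME μ E) := by
  have h1 : Continuous (Function.uncurry fun U V : E → G => F (mix p U V)) := hF.comp mix_cont
  have h2 := continuous_parametric_integral_of_continuous (μ := ME μ E) h1 isCompact_univ
  simpa only [Measure.restrict_univ] using h2

variable [μ.IsMulLeftInvariant] [μ.IsMulRightInvariant]

/-- resampling the links of `p` -/
lemma integral_mix {F : (E → G) → ℝ} (hF : Continuous F) :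
    ∫ U, (∫ V, F (mix p U V) ∂(ME μ E)) ∂(ME μ E) = ∫ U, F U ∂(ME μ E) := by
  have h1 : ∀ U : E → G, ∫ V, F (mix p U V) ∂(ME μ E) =
      ∫ V, F (fun e => if p e then V e * U e * 1 else U e) ∂(ME μ E) := by
    intro U
    have hc : Continuous fun V : E → G => F (mix p U V) :=
      hF.comp (mix_cont.comp (continuous_const.prodMk continuous_id))
    rw [← integral_skew μ p hc (a := fun _ _ => 1) (b := fun e _ => U e) (fun e => continuous_const)
      (fun e => continuous_const) (fun e _ _ _ => rfl) (fun e _ _ _ => rfl)]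
    refine integral_congr_ae (Filter.Eventually.of_forall fun V => ?_)
    simp only
    congr 1
    funext e
    by_cases he : p e
    · rw [mix_pos he, if_pos he, if_pos he, one_mul, mul_one]
    · rw [mix_neg he, if_neg he]
  have hcc : Continuous fun z : (E → G) × (E → G) =>
      F (fun e => if p e then z.2 e * z.1 e * 1 else z.1 e) := by
    refine hF.comp (continuous_pi fun e => ?_)
    by_cases he : p e
    · simp only [he, if_true]
      exact (((continuous_apply e).comp continuous_snd).mul
        ((continuous_apply e).comp continuous_fst)).mul continuous_const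
    · simp only [he, if_false]
      exact (continuous_apply e).comp continuous_fst
  have h2 : Integrable (Function.uncurry fun U V : E → G =>
      F (fun e => if p e then V e * U e * 1 else U e)) ((ME μ E).prod (ME μ E)) :=
    hcc.integrable_of_hasCompactSupport (HasCompactSupport.of_compactSpace _)
  simp only [h1]
  rw [integral_integral_swap h2]
  have h3 : ∀ V : E → G, ∫ U, F (fun e => if p e then V e * U e * 1 else U e) ∂(ME μ E) =
      ∫ U, F U ∂(ME μ E) := fun V =>
    integral_skew μ p hF (a := fun e _ => V e) (b := fun _ _ => 1) (fun e => continuous_const)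
      (fun e => continuous_const) (fun e _ _ _ => rfl) (fun e _ _ _ => rfl)
  simp only [h3]
  simp

end mix

variable {G : Type*} [Group G] [TopologicalSpace G] [IsTopologicalGroup G] [CompactSpace G]
  [SecondCountableTopology G] [MeasurableSpace G] [BorelSpace G] (μ : Measure G)
  [IsProbabilityMeasure μ] [μ.IsMulLeftInvariant] [μ.IsMulRightInvariant] [μ.IsInvInvariant]
  {N n : ℕ} {L : LD G N n} {d l : ℕ} [NeZero l] {β : ℝ}

variable (L) in
/-- the conditional expectation of `f`, given the links outside `p` -/
def cE (p : Ed d l → Prop) [DecidablePred p] (β : ℝ) (f : (Ed d l → G) → ℝ) (U : Ed d l → G) : ℝ :=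
  (∫ V, f (mix p U V) * Real.exp (-(β * act L (mix p U V))) ∂(ME μ (Ed d l))) /
    ∫ V, Real.exp (-(β * act L (mix p U V))) ∂(ME μ (Ed d l))

section ce

variable {p : Ed d l → Prop} [DecidablePred p]

lemma den_pos (U : Ed d l → G) :
    0 < ∫ V, Real.exp (-(β * act L (mix p U V))) ∂(ME μ (Ed d l)) := by
  refine integral_exp_pos ?_
  exact integrable_cont μ ((wt_contT (L := L) β).comp (mix_cont.comp
    (continuous_const.prodMk continuous_id)))

lemma cE_cont {f : (Ed d l → G) → ℝ} (hf : Continuous f) :
    Continuous (cE μ L p β f) := by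
  unfold cE
  refine Continuous.div ?_ ?_ fun U => (den_pos μ U).ne'
  · exact mix_int_cont μ (F := fun U => f U * Real.exp (-(β * act L U)))
      (hf.mul (wt_contT β))
  · exact mix_int_cont μ (F := fun U => Real.exp (-(β * act L U))) (wt_contT β)

lemma cE_dep (f : (Ed d l → G) → ℝ) : Dep (fun e => ¬p e) (cE μ L p β f) := by
  intro U U' h
  unfold cE
  simp only [mix_congr h]

/-- the defining property -/
lemma EX_cE {f h : (Ed d l → G) → ℝ} (hf : Continuous f) (hh : Continuous h)
    (hd : Dep (fun e => ¬p e) h) :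
    EX μ L β (fun U => h U * f U) = EX μ L β (fun U => h U * cE μ L p β f U) := by
  unfold EX
  congr 1
  unfold Zt
  have c1 : Continuous fun U : Ed d l → G => h U * f U * Real.exp (-(β * act L U)) :=
    (hh.mul hf).mul (wt_contT β)
  have c2 : Continuous fun U : Ed d l → G =>
      h U * cE μ L p β f U * Real.exp (-(β * act L U)) :=
    (hh.mul (cE_cont μ hf)).mul (wt_contT β)
  rw [← integral_mix μ (p := p) c1, ← integral_mix μ (p := p) c2]
  refine integral_congr_ae (Filter.Eventually.of_forall fun U => ?_)
  simp only [mix_dep hd, mix_dep (cE_dep μ f)]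
  have h1 : ∫ V, h U * f (mix p U V) * Real.exp (-(β * act L (mix p U V))) ∂(ME μ (Ed d l)) =
      h U * ∫ V, f (mix p U V) * Real.exp (-(β * act L (mix p U V))) ∂(ME μ (Ed d l)) := by
    rw [← integral_const_mul]
    simp only [mul_assoc]
  have h2 : ∫ V, h U * cE μ L p β f U * Real.exp (-(β * act L (mix p U V))) ∂(ME μ (Ed d l)) =
      h U * cE μ L p β f U * ∫ V, Real.exp (-(β * act L (mix p U V))) ∂(ME μ (Ed d l)) := by
    rw [← integral_const_mul]
  rw [h1, h2, mul_assoc]
  congr 1
  unfold cE
  rw [div_mul_cancel₀ _ (den_pos μ U).ne']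

end ce

/-- the plaquette contains a link of `p` -/
def PT (p : Ed d l → Prop) (x : Fin d → ZMod l) (i j : Fin d) : Prop :=
  p (x, i) ∨ p (x + eT i, j) ∨ p (x + eT j, i) ∨ p (x, j)

/-- no plaquette contains links of both sets -/
def Sep (p p' : Ed d l → Prop) : Prop := ∀ x i j, i < j → ¬(PT p x i j ∧ PT p' x i j)

lemma plqT_off {p : Ed d l → Prop} {U U' : Ed d l → G} (h : ∀ e, ¬p e → U e = U' e)
    {x : Fin d → ZMod l} {i j : Fin d} (hp : ¬PT p x i j) : plqT U x i j = plqT U' x i j := by
  unfold PT at hp
  push Not at hp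
  unfold plqT
  rw [h _ hp.1, h _ hp.2.1, h _ hp.2.2.1, h _ hp.2.2.2]

lemma act_sep {p p' : Ed d l → Prop} [DecidablePred p] (hs : Sep p p') {U U' : Ed d l → G}
    (h : ∀ e, ¬p' e → U e = U' e) (V V' : Ed d l → G) :
    act L (mix p U V) - act L (mix p U' V) = act L (mix p U V') - act L (mix p U' V') := by
  have h1 : ∀ W : Ed d l → G, ∀ e, ¬p' e → mix p U W e = mix p U' W e := fun W e he => by
    by_cases hp : p e
    · rw [mix_pos hp, mix_pos hp]
    · rw [mix_neg hp, mix_neg hp, h e he]
  have h2 : ∀ W : Ed d l → G, ∀ e, ¬p e → mix p W V e = mix p W V' e := fun W e he => by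
    rw [mix_neg he, mix_neg he]
  unfold act
  simp only [← Finset.sum_sub_distrib]
  refine Finset.sum_congr rfl fun x _ => Finset.sum_congr rfl fun i _ =>
    Finset.sum_congr rfl fun j _ => ?_
  by_cases hij : i < j
  · rw [if_pos hij, if_pos hij, if_pos hij, if_pos hij]
    by_cases hp : PT p x i j
    · have hp' : ¬PT p' x i j := fun h' => hs x i j hij ⟨hp, h'⟩
      rw [plqT_off (h1 V) hp', plqT_off (h1 V') hp', sub_self, sub_self]
    · rw [plqT_off (h2 U) hp, plqT_off (h2 U') hp]
  · rw [if_neg hij, if_neg hij, if_neg hij, if_neg hij]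

lemma cE_dep' {p p' : Ed d l → Prop} [DecidablePred p] (hs : Sep p p')
    {f : (Ed d l → G) → ℝ} (hf : Dep (fun e => ¬p' e) f) :
    Dep (fun e => ¬p' e) (cE μ L p β f) := by
  intro U U' h
  obtain ⟨δ, hδ⟩ : ∃ δ, δ = act L (mix p U 1) - act L (mix p U' 1) := ⟨_, rfl⟩
  have h1 : ∀ V : Ed d l → G, act L (mix p U V) = act L (mix p U' V) + δ := fun V => by
    have := act_sep (L := L) hs h V 1
    rw [← hδ] at this
    linarith
  have h2 : ∀ V : Ed d l → G, f (mix p U V) = f (mix p U' V) := fun V => hf _ _ fun e he => by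
    by_cases hp : p e
    · rw [mix_pos hp, mix_pos hp]
    · rw [mix_neg hp, mix_neg hp, h e he]
  have h3 : ∀ V : Ed d l → G, Real.exp (-(β * act L (mix p U V))) =
      Real.exp (-(β * δ)) * Real.exp (-(β * act L (mix p U' V))) := fun V => by
    rw [h1, ← Real.exp_add]
    congr 1
    ring
  unfold cE
  simp only [h2, h3]
  have h4 : ∀ V : Ed d l → G, f (mix p U' V) * (Real.exp (-(β * δ)) *
      Real.exp (-(β * act L (mix p U' V)))) = Real.exp (-(β * δ)) * (f (mix p U' V) *
      Real.exp (-(β * act L (mix p U' V)))) := fun V => by ring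
  simp only [h4]
  rw [integral_const_mul, integral_const_mul, mul_div_mul_left _ _ (Real.exp_pos _).ne']

section gram

variable {ι : Type*} [Fintype ι] [DecidableEq ι] {p : ι → Ed d l → Prop}
  [∀ i, DecidablePred (p i)]

/-- the variance of a sum of observables of separated blocks -/
theorem gram_low (hs : ∀ i j, i ≠ j → Sep (p i) (p j)) {F : ι → (Ed d l → G) → ℝ}
    (hF : ∀ i, Continuous (F i)) (hd : ∀ i j, i ≠ j → Dep (fun e => ¬p j e) (F i)) {v : ℝ}
    (hv : ∀ i, ∀ g : (Ed d l → G) → ℝ, Continuous g → Dep (fun e => ¬p i e) g →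
      v ≤ EX μ L β (fun U => (F i U - g U) ^ 2)) (a : ι → ℝ) (c : ℝ) :
    v * ∑ i, a i ^ 2 ≤ EX μ L β (fun U => (∑ i, a i * F i U - c) ^ 2) := by
  obtain ⟨g, hg⟩ : ∃ g : ι → (Ed d l → G) → ℝ, ∀ i, g i = cE μ L (p i) β (F i) :=
    ⟨fun i => cE μ L (p i) β (F i), fun i => rfl⟩
  have hgc : ∀ i, Continuous (g i) := fun i => by rw [hg]; exact cE_cont μ (hF i)
  have hgd : ∀ i j, Dep (fun e => ¬p j e) (g i) := fun i j => by
    rw [hg]
    by_cases hij : i = j
    · subst hij
      exact cE_dep μ (F i)
    · exact cE_dep' μ (hs i j hij) (hd i j hij)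
  -- orthogonality
  have ho : ∀ (j : ι) (f : (Ed d l → G) → ℝ), Continuous f → Dep (fun e => ¬p j e) f →
      EX μ L β (fun U => f U * (F j U - g j U)) = 0 := fun j f hf hfd => by
    have h1 := EX_cE μ (L := L) (β := β) (hF j) hf hfd
    rw [← hg] at h1
    have h2 : (fun U => f U * (F j U - g j U)) = fun U => f U * F j U - f U * g j U := by
      funext U; ring
    have c1 : Continuous fun U => f U * F j U := hf.mul (hF j)
    have c2 : Continuous fun U => f U * g j U := hf.mul (hgc j)
    rw [h2, EX_sub μ c1 c2, h1, sub_self]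
  obtain ⟨Q, hQ⟩ : ∃ Q : (Ed d l → G) → ℝ, Q = fun U => ∑ i, a i * g i U - c := ⟨_, rfl⟩
  obtain ⟨P, hP⟩ : ∃ P : (Ed d l → G) → ℝ, P = fun U => ∑ i, a i * (F i U - g i U) := ⟨_, rfl⟩
  have hQc : Continuous Q := by
    rw [hQ]
    exact (continuous_finsetSum _ fun i _ => continuous_const.mul (hgc i)).sub continuous_const
  have hPc : Continuous P := by
    rw [hP]
    exact continuous_finsetSum _ fun i _ => continuous_const.mul ((hF i).sub (hgc i))
  have hQd : ∀ j, Dep (fun e => ¬p j e) Q := fun j U U' h => by
    rw [hQ]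
    simp only
    congr 1
    exact Finset.sum_congr rfl fun i _ => by rw [hgd i j U U' h]
  have e1 : (fun U => (∑ i, a i * F i U - c) ^ 2) =
      fun U => (Q U ^ 2 + 2 * (Q U * P U)) + P U ^ 2 := by
    funext U
    have : ∑ i, a i * F i U - c = Q U + P U := by
      rw [hQ, hP]
      simp only
      have h1 : ∑ i, a i * F i U = ∑ i, a i * g i U + ∑ i, a i * (F i U - g i U) := by
        rw [← Finset.sum_add_distrib]
        exact Finset.sum_congr rfl fun i _ => by ring
      rw [h1]
      ring
    rw [this]
    ring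
  have c1 : Continuous fun U => Q U ^ 2 := hQc.pow 2
  have c2 : Continuous fun U => 2 * (Q U * P U) := continuous_const.mul (hQc.mul hPc)
  have c3 : Continuous fun U => P U ^ 2 := hPc.pow 2
  have c12 : Continuous fun U => Q U ^ 2 + 2 * (Q U * P U) := c1.add c2
  rw [e1, EX_add μ c12 c3, EX_add μ c1 c2, EX_smul]
  -- the mixed term
  have k1 : EX μ L β (fun U => Q U * P U) = 0 := by
    have h1 : (fun U => Q U * P U) = fun U => ∑ i, a i * (Q U * (F i U - g i U)) := by
      funext U
      rw [hP]
      simp only
      rw [Finset.mul_sum]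
      exact Finset.sum_congr rfl fun i _ => by ring
    have cc : ∀ i, Continuous fun U => a i * (Q U * (F i U - g i U)) := fun i =>
      continuous_const.mul (hQc.mul ((hF i).sub (hgc i)))
    rw [h1, EX_sum μ Finset.univ (fun i _ => cc i)]
    refine Finset.sum_eq_zero fun i _ => ?_
    rw [EX_smul, ho i Q hQc (hQd i), mul_zero]
  -- the square
  have k2 : EX μ L β (fun U => P U ^ 2) =
      ∑ i, a i ^ 2 * EX μ L β (fun U => (F i U - g i U) ^ 2) := by
    have h1 : (fun U => P U ^ 2) = fun U => ∑ i, ∑ j, a i * a j *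
        ((F i U - g i U) * (F j U - g j U)) := by
      funext U
      rw [hP]
      simp only
      rw [sq, Finset.sum_mul_sum]
      exact Finset.sum_congr rfl fun i _ => Finset.sum_congr rfl fun j _ => by ring
    have cc : ∀ i j, Continuous fun U => a i * a j * ((F i U - g i U) * (F j U - g j U)) :=
      fun i j => continuous_const.mul (((hF i).sub (hgc i)).mul ((hF j).sub (hgc j)))
    have cc' : ∀ i, Continuous fun U => ∑ j, a i * a j * ((F i U - g i U) * (F j U - g j U)) :=
      fun i => continuous_finsetSum _ fun j _ => cc i j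
    rw [h1, EX_sum μ Finset.univ (fun i _ => cc' i)]
    refine Finset.sum_congr rfl fun i _ => ?_
    rw [EX_sum μ Finset.univ (fun j _ => cc i j)]
    rw [Finset.sum_eq_single i]
    · rw [EX_smul]
      have h2 : (fun U => (F i U - g i U) * (F i U - g i U)) = fun U => (F i U - g i U) ^ 2 := by
        funext U; ring
      rw [h2, ← sq]
    · intro j _ hj
      rw [EX_smul, ho j (fun U => F i U - g i U) ((hF i).sub (hgc i)) (fun U U' h => by
        simp only
        rw [hd i j hj.symm U U' h, hgd i j U U' h]), mul_zero]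
    · intro h
      exact absurd (Finset.mem_univ i) h
  rw [k1, k2, mul_zero, add_zero]
  have k3 : 0 ≤ EX μ L β (fun U => Q U ^ 2) := EX_nonneg μ fun U => sq_nonneg _
  have k4 : v * ∑ i, a i ^ 2 ≤ ∑ i, a i ^ 2 * EX μ L β (fun U => (F i U - g i U) ^ 2) := by
    rw [Finset.mul_sum]
    refine Finset.sum_le_sum fun i _ => ?_
    rw [mul_comm]
    exact mul_le_mul_of_nonneg_left (hv i (g i) (hgc i) (hgd i i)) (sq_nonneg _)
  linarith

end gram

end

end Pool.Agent.H31YM
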