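import Mathlib

/-!
# Large subspaces on which a quadratic form is small
-/

open Matrix Module

namespace Pool.Agent.H31YM

/-- a positive semidefinite quadratic form with small diagonal is small on a subspace of at least
half of the dimension -/
theorem spec {K : ℕ} (M : Matrix (Fin K) (Fin K) ℝ) (hM : ∀ i j, M i j = M j i)
    (hpos : ∀ a : Fin K → ℝ, 0 ≤ ∑ i, ∑ j, a i * a j * M i j) {τ : ℝ} (hτ : 0 < τ)
    (hd : ∀ i, M i i ≤ τ) : ∃ V : Submodule ℝ (Fin K → ℝ), K ≤ 2 * finrank ℝ V ∧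
      ∀ a ∈ V, ∑ i, ∑ j, a i * a j * M i j ≤ 2 * τ * ∑ i, a i ^ 2 := by
  classical
  have hA : M.IsHermitian := by
    ext i j
    rw [conjTranspose_apply, star_trivial]
    exact hM j i
  obtain ⟨u, hu⟩ : ∃ u : Fin K → (Fin K → ℝ), ∀ i, u i = ⇑(hA.eigenvectorBasis i) :=
    ⟨_, fun i => rfl⟩
  obtain ⟨l, hl⟩ : ∃ l, l = hA.eigenvalues := ⟨_, rfl⟩
  have hq : ∀ a : Fin K → ℝ, ∑ i, ∑ j, a i * a j * M i j = a ⬝ᵥ (M *ᵥ a) := by
    intro a
    simp only [dotProduct, mulVec, Finset.mul_sum]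
    exact Finset.sum_congr rfl fun i _ => Finset.sum_congr rfl fun j _ => by ring
  have hMu : ∀ i, M *ᵥ u i = l i • u i := fun i => by
    rw [hu, hl]
    exact hA.mulVec_eigenvectorBasis i
  have hdot : ∀ (x y : EuclideanSpace ℝ (Fin K)), inner ℝ x y = (x : Fin K → ℝ) ⬝ᵥ (y : Fin K → ℝ) := by
    intro x y
    rw [EuclideanSpace.inner_eq_star_dotProduct, star_trivial, dotProduct_comm]
  have hpars : ∀ a b : Fin K → ℝ, a ⬝ᵥ b = ∑ i, (u i ⬝ᵥ a) * (u i ⬝ᵥ b) := by
    intro a b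
    have h1 := hA.eigenvectorBasis.sum_inner_mul_inner (WithLp.toLp 2 a) (WithLp.toLp 2 b)
    rw [hdot] at h1
    simp only [hdot] at h1
    rw [← h1]
    refine Finset.sum_congr rfl fun i _ => ?_
    rw [hu, dotProduct_comm]
  have hMa : ∀ (i : Fin K) (a : Fin K → ℝ), u i ⬝ᵥ (M *ᵥ a) = l i * (u i ⬝ᵥ a) := by
    intro i a
    rw [dotProduct_mulVec]
    have h1 : u i ᵥ* M = M *ᵥ u i := by
      have h2 : Mᵀ = M := by
        ext j k
        rw [transpose_apply]
        exact hM k j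
      rw [← mulVec_transpose, h2]
    rw [h1, hMu, smul_dotProduct, smul_eq_mul]
  have hform : ∀ a : Fin K → ℝ, ∑ i, ∑ j, a i * a j * M i j = ∑ i, l i * (u i ⬝ᵥ a) ^ 2 := by
    intro a
    rw [hq, hpars]
    refine Finset.sum_congr rfl fun i _ => ?_
    rw [hMa]
    ring
  have hnorm : ∀ a : Fin K → ℝ, ∑ i, a i ^ 2 = ∑ i, (u i ⬝ᵥ a) ^ 2 := by
    intro a
    have h1 := hpars a a
    rw [dotProduct] at h1
    calc ∑ i, a i ^ 2 = ∑ i, a i * a i := Finset.sum_congr rfl fun i _ => sq _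
      _ = _ := h1
      _ = _ := Finset.sum_congr rfl fun i _ => (sq _).symm
  have huu : ∀ i, u i ⬝ᵥ u i = 1 := fun i => by
    have h1 := hA.eigenvectorBasis.orthonormal.1 i
    have h2 : inner ℝ (hA.eigenvectorBasis i) (hA.eigenvectorBasis i) = (1 : ℝ) := by
      rw [real_inner_self_eq_norm_sq, h1, one_pow]
    rw [hdot] at h2
    rw [hu]
    exact h2
  have hl0 : ∀ i, 0 ≤ l i := fun i => by
    have h1 := hpos (u i)
    rw [hq, hMa, huu, mul_one] at h1
    exact h1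
  have htr : ∑ i, l i ≤ K * τ := by
    have h1 := hA.trace_eq_sum_eigenvalues
    rw [← hl] at h1
    simp only [RCLike.ofReal_real_eq_id, id_eq] at h1
    rw [← h1, trace]
    calc ∑ i, diag M i ≤ ∑ _i : Fin K, τ := Finset.sum_le_sum fun i _ => hd i
      _ = K * τ := by rw [Finset.sum_const, Finset.card_univ, Fintype.card_fin, nsmul_eq_mul]
  obtain ⟨S, hS⟩ : ∃ S : Finset (Fin K), S = Finset.univ.filter fun i => 2 * τ < l i := ⟨_, rfl⟩
  have hcard : 2 * S.card ≤ K := by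
    have h1 : (S.card : ℝ) * (2 * τ) ≤ K * τ := by
      calc (S.card : ℝ) * (2 * τ) = ∑ _i ∈ S, 2 * τ := by rw [Finset.sum_const, nsmul_eq_mul]
        _ ≤ ∑ i ∈ S, l i := Finset.sum_le_sum fun i hi => by
            rw [hS] at hi
            exact (Finset.mem_filter.1 hi).2.le
        _ ≤ ∑ i, l i := Finset.sum_le_univ_sum_of_nonneg hl0
        _ ≤ K * τ := htr
    have h2 : (2 * S.card : ℝ) ≤ K := by
      refine le_of_mul_le_mul_right ?_ hτ
      linarith
    exact_mod_cast h2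
  -- the linear map
  obtain ⟨T, hT⟩ : ∃ T : (Fin K → ℝ) →ₗ[ℝ] (S → ℝ), ∀ a i, T a i = u i ⬝ᵥ a :=
    ⟨{ toFun := fun a i => u i ⬝ᵥ a
       map_add' := fun a b => by funext i; exact dotProduct_add _ _ _
       map_smul' := fun c a => by funext i; exact dotProduct_smul _ _ _ }, fun a i => rfl⟩
  refine ⟨LinearMap.ker T, ?_, fun a ha => ?_⟩
  · have h1 := T.finrank_range_add_finrank_ker
    rw [finrank_fintype_fun_eq_card, Fintype.card_fin] at h1
    have h2 : finrank ℝ (LinearMap.range T) ≤ S.card := by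
      calc finrank ℝ (LinearMap.range T) ≤ finrank ℝ (S → ℝ) := Submodule.finrank_le _
        _ = S.card := by rw [finrank_fintype_fun_eq_card, Fintype.card_coe]
    omega
  · rw [hform, hnorm, Finset.mul_sum]
    refine Finset.sum_le_sum fun i _ => ?_
    by_cases hi : 2 * τ < l i
    · have h1 : i ∈ S := by rw [hS]; exact Finset.mem_filter.2 ⟨Finset.mem_univ _, hi⟩
      have h2 : u i ⬝ᵥ a = 0 := by
        rw [← hT a ⟨i, h1⟩, LinearMap.mem_ker.1 ha]
        rfl
      rw [h2]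
      simp
    · exact mul_le_mul_of_nonneg_right (not_lt.1 hi) (sq_nonneg _)

end Pool.Agent.H31YM
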