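import Mathlib
import Pool.Agent.R990.MG.Var2

/-!
# Lower bound of the deviation of the observable from functions of the other links
-/

open MeasureTheory Matrix Filter
open scoped Matrix.Norms.Frobenius Topology
open Pool.Agent.H906R3.YM hiding Pl
open Pool.Agent.W793.YM Pool.Agent.TH618.YM Pool.Agent.Y14

namespace Pool.Agent.MG990.H31YM

set_option linter.unusedSectionVars false
set_option linter.unusedVariables false

noncomputable section

variable {G : Type*} [Group G] [TopologicalSpace G] [IsTopologicalGroup G] [CompactSpace G]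
  [SecondCountableTopology G] [MeasurableSpace G] [BorelSpace G] (μ : Measure G)
  [IsProbabilityMeasure μ] [μ.IsMulLeftInvariant] [μ.IsMulRightInvariant] [μ.IsInvInvariant]
  {N n : ℕ} {L : LD G N n} {e m : ℕ} [NeZero m] {q : ℕ} {β : ℝ} {r : ℕ}

variable (L) in
/-- the scaled deviation -/
def Wf (r q : ℕ) (c : (Ed (e + 3) (2 * m) → G) → ℝ) (t : ℝ) (U : Ed (e + 3) (2 * m) → G) : ℝ :=
  ((‖psi L r q U‖ - c U) / t) ^ 2

lemma Wf_cont {c : (Ed (e + 3) (2 * m) → G) → ℝ} (hc : Continuous c) (t : ℝ) :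
    Continuous fun U : Ed (e + 3) (2 * m) → G => Wf L r q c t U :=
  ((psi_cont.norm.sub hc).div_const t).pow 2

/-- the union bound -/
lemma union_ptf (hn : 1 ≤ n) (hq : 1 ≤ q) (hqr : q = 2 ^ r) (hqm : 5 * q < 2 * m) {C0 : ℝ} (hC0 : 0 ≤ C0)
    (hcar : ∀ g : G, dv L g ^ 2 ≤ ∑ a, fi L a g ^ 2 + C0 * dv L g ^ 4) {s : ℝ} (hs : 0 < s)
    {y : ℝ} (hy : y = s * Kb e q m) (hy0 : 0 < y) {c : (Ed (e + 3) (2 * m) → G) → ℝ}
    (hc : Continuous c) (hcP : ∀ (a : Fin n) (s : ℝ) (U : Ed (e + 3) (2 * m) → G),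
      c (Ps L q a s U) = c U) {t : ℝ} (ht : t = 1 / (16 * n) * y)
    (U : Ed (e + 3) (2 * m) → G) :
    1 ≤ Wf L r q c t U + ∑ a : Fin n, (min 1 (Wf L r q c t (Ps L q a s U)) +
      min 1 (Wf L r q c t (Ps L q a (-s) U))) + (s / t * Er L r q s U) ^ 2 + 1 / y * Nr L C0 r q U := by
  have hn0 : (1 : ℝ) ≤ n := by exact_mod_cast hn
  have ht0 : 0 < t := by rw [ht]; positivity
  by_contra hcon
  push Not at hcon
  have w0 : 0 ≤ Wf L r q c t U := sq_nonneg _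
  have w1 : ∀ V : Ed (e + 3) (2 * m) → G, 0 ≤ min 1 (Wf L r q c t V) :=
    fun V => le_min zero_le_one (sq_nonneg _)
  have w2 : 0 ≤ ∑ a : Fin n, (min 1 (Wf L r q c t (Ps L q a s U)) +
      min 1 (Wf L r q c t (Ps L q a (-s) U))) :=
    Finset.sum_nonneg fun a _ => add_nonneg (w1 _) (w1 _)
  have w3 : 0 ≤ (s / t * Er L r q s U) ^ 2 := sq_nonneg _
  have w4 : 0 ≤ 1 / y * Nr L C0 r q U := mul_nonneg (by positivity) (Nr_nonneg U)
  have b0 : |‖psi L r q U‖ - c U| ≤ t := le_of_sq_div ht0 (by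
    have : Wf L r q c t U < 1 := by linarith
    exact this)
  have b1 : ∀ a : Fin n, |‖psi L r q (Ps L q a s U)‖ - c U| ≤ t ∧
      |‖psi L r q (Ps L q a (-s) U)‖ - c U| ≤ t := by
    intro a
    have h1 : min 1 (Wf L r q c t (Ps L q a s U)) + min 1 (Wf L r q c t (Ps L q a (-s) U)) < 1 := by
      refine lt_of_le_of_lt ?_ (by linarith : ∑ a : Fin n, (min 1 (Wf L r q c t (Ps L q a s U)) +
        min 1 (Wf L r q c t (Ps L q a (-s) U))) < 1)
      exact Finset.single_le_sum (f := fun a : Fin n => min 1 (Wf L r q c t (Ps L q a s U)) +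
        min 1 (Wf L r q c t (Ps L q a (-s) U))) (fun a _ => add_nonneg (w1 _) (w1 _))
        (Finset.mem_univ a)
    have h2 : min 1 (Wf L r q c t (Ps L q a s U)) < 1 := by
      have := w1 (Ps L q a (-s) U); linarith
    have h3 : min 1 (Wf L r q c t (Ps L q a (-s) U)) < 1 := by
      have := w1 (Ps L q a s U); linarith
    rw [min_lt_iff] at h2 h3
    have h4 := le_of_sq_div ht0 (h2.resolve_left (lt_irrefl _))
    have h5 := le_of_sq_div ht0 (h3.resolve_left (lt_irrefl _))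
    rw [hcP] at h4 h5
    exact ⟨h4, h5⟩
  have b2 : s * Er L r q s U ≤ t := by
    have h1 : (s / t * Er L r q s U) ^ 2 < 1 := by linarith
    have h2 : 0 ≤ s / t * Er L r q s U := mul_nonneg (by positivity) (Er_nonneg _ _)
    rw [sq_lt_one_iff₀ h2] at h1
    have h3 : s / t * Er L r q s U = s * Er L r q s U / t := by ring
    rw [h3, div_lt_one ht0] at h1
    exact h1.le
  have b3 : ‖nr L (psi L r q U)‖ ≤ y := by
    have h1 : 1 / y * Nr L C0 r q U < 1 := by linarith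
    have h3 : 1 / y * Nr L C0 r q U = Nr L C0 r q U / y := by ring
    rw [h3, div_lt_one hy0] at h1
    exact (nr_psi hq hC0 hcar U).trans h1.le
  have ht2 : 1 / (8 * (n : ℝ)) * y = t + t := by
    rw [ht]; field_simp; norm_num
  have key : ∀ (A B : Mat N), ‖A - B‖ ≤ t → |‖A‖ - c U| ≤ t → |‖B‖ - c U| ≤ t + t := by
    intro A B h1 h2
    have h3 : |‖B‖ - ‖A‖| ≤ t := by
      rw [abs_sub_comm]
      exact (abs_norm_sub_norm_le A B).trans h1
    calc |‖B‖ - c U| = |(‖B‖ - ‖A‖) + (‖A‖ - c U)| := by ring_nf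
      _ ≤ |‖B‖ - ‖A‖| + |‖A‖ - c U| := abs_add_le _ _
      _ ≤ t + t := add_le_add h3 h2
  refine det_contra (L := L) (M := psi L r q U) (y := y) (c := c U) (κ := 1 / (8 * n)) hn hy0 rfl
    (b0.trans (by rw [ht2]; linarith)) (fun a => ?_) (fun a => ?_) b3
  · rw [ht2]
    refine key (psi L r q (Ps L q a s U)) _ ?_ (b1 a).1
    have h1 := psi_resp (L := L) hq hqr hqm a s U
    rw [abs_of_pos hs, ← hy] at h1
    rw [← sub_sub]
    exact h1.trans b2
  · rw [ht2]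
    refine key (psi L r q (Ps L q a (-s) U)) _ ?_ (b1 a).2
    have h1 := psi_resp (L := L) hq hqr hqm a (-s) U
    rw [abs_neg, abs_of_pos hs, neg_mul, ← hy, Er_neg] at h1
    rw [← sub_sub]
    exact h1.trans b2

/-- the averaged union bound -/
lemma union_EXf (hn : 1 ≤ n) (hq : 1 ≤ q) (hqr : q = 2 ^ r) (hqm : 5 * q < 2 * m) {C0 : ℝ} (hC0 : 0 ≤ C0)
    (hcar : ∀ g : G, dv L g ^ 2 ≤ ∑ a, fi L a g ^ 2 + C0 * dv L g ^ 4) {s : ℝ} (hs : 0 < s)
    {y : ℝ} (hy : y = s * Kb e q m) (hy0 : 0 < y) {c : (Ed (e + 3) (2 * m) → G) → ℝ}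
    (hc : Continuous c) (hcP : ∀ (a : Fin n) (s : ℝ) (U : Ed (e + 3) (2 * m) → G),
      c (Ps L q a s U) = c U) {t : ℝ} (ht : t = 1 / (16 * n) * y)
    {X : ℝ} (hX : ∀ a : Fin n, EX μ L β (fun U : Ed (e + 3) (2 * m) → G => XX L β q a s U) ≤ X)
    (hX' : ∀ a : Fin n, EX μ L β (fun U : Ed (e + 3) (2 * m) → G => XX L β q a (-s) U) ≤ X) :
    1 ≤ (1 + 6 * n) * EX μ L β (fun U : Ed (e + 3) (2 * m) → G => Wf L r q c t U) + 6 * n * X +
      (s / t * en μ L β (fun U : Ed (e + 3) (2 * m) → G => Er L r q s U)) ^ 2 +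
      1 / y * EX μ L β (fun U : Ed (e + 3) (2 * m) → G => Nr L C0 r q U) := by
  have cW := Wf_cont (L := L) (e := e) (m := m) (q := q) (r := r) hc t
  have cg : Continuous fun U : Ed (e + 3) (2 * m) → G => min 1 (Wf L r q c t U) :=
    continuous_const.min cW
  have cgs : ∀ (a : Fin n) (s : ℝ), Continuous fun U : Ed (e + 3) (2 * m) → G =>
      min 1 (Wf L r q c t (Ps L q a s U)) := fun a s => cg.comp (Ps_cont a s)
  have cS : Continuous fun U : Ed (e + 3) (2 * m) → G =>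
      ∑ a : Fin n, (min 1 (Wf L r q c t (Ps L q a s U)) + min 1 (Wf L r q c t (Ps L q a (-s) U))) :=
    continuous_finsetSum _ fun a _ => (cgs a s).add (cgs a (-s))
  have cE : Continuous fun U : Ed (e + 3) (2 * m) → G => (s / t * Er L r q s U) ^ 2 :=
    (continuous_const.mul (Er_cont s)).pow 2
  have cN : Continuous fun U : Ed (e + 3) (2 * m) → G => 1 / y * Nr L C0 r q U :=
    continuous_const.mul Nr_cont
  have c1 : Continuous fun U : Ed (e + 3) (2 * m) → G => Wf L r q c t U +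
      ∑ a : Fin n, (min 1 (Wf L r q c t (Ps L q a s U)) + min 1 (Wf L r q c t (Ps L q a (-s) U))) :=
    cW.add cS
  have c2 : Continuous fun U : Ed (e + 3) (2 * m) → G => Wf L r q c t U +
      ∑ a : Fin n, (min 1 (Wf L r q c t (Ps L q a s U)) + min 1 (Wf L r q c t (Ps L q a (-s) U))) +
      (s / t * Er L r q s U) ^ 2 := c1.add cE
  have c3 : Continuous fun U : Ed (e + 3) (2 * m) → G => Wf L r q c t U +
      ∑ a : Fin n, (min 1 (Wf L r q c t (Ps L q a s U)) + min 1 (Wf L r q c t (Ps L q a (-s) U))) +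
      (s / t * Er L r q s U) ^ 2 + 1 / y * Nr L C0 r q U := c2.add cN
  have h := EX_mono μ (L := L) (β := β) (continuous_const (y := (1 : ℝ))) c3
    (union_ptf hn hq hqr hqm hC0 hcar hs hy hy0 hc hcP ht)
  have c4 : ∀ a : Fin n, Continuous fun U : Ed (e + 3) (2 * m) → G =>
      min 1 (Wf L r q c t (Ps L q a s U)) + min 1 (Wf L r q c t (Ps L q a (-s) U)) :=
    fun a => (cgs a s).add (cgs a (-s))
  rw [EX_one, EX_add μ c2 cN, EX_add μ c1 cE, EX_add μ cW cS, EX_fsum μ _ c4, EX_smul] at h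
  have h1 : ∀ a : Fin n, EX μ L β (fun U : Ed (e + 3) (2 * m) → G =>
      min 1 (Wf L r q c t (Ps L q a s U)) + min 1 (Wf L r q c t (Ps L q a (-s) U))) ≤
      6 * EX μ L β (fun U : Ed (e + 3) (2 * m) → G => Wf L r q c t U) + 6 * X := by
    intro a
    rw [EX_add μ (cgs a s) (cgs a (-s))]
    have k1 := tilt μ (L := L) (β := β) hq a s cg (fun U => le_min zero_le_one (sq_nonneg _))
      (fun U => min_le_left _ _)
    have k2 := tilt μ (L := L) (β := β) hq a (-s) cg (fun U => le_min zero_le_one (sq_nonneg _))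
      (fun U => min_le_left _ _)
    have k3 : EX μ L β (fun U : Ed (e + 3) (2 * m) → G => min 1 (Wf L r q c t U)) ≤
      EX μ L β (fun U : Ed (e + 3) (2 * m) → G => Wf L r q c t U) :=
      EX_mono μ cg cW fun U => min_le_right _ _
    have k4 := hX a
    have k5 := hX' a
    linarith
  have h2 : ∑ a : Fin n, EX μ L β (fun U : Ed (e + 3) (2 * m) → G =>
      min 1 (Wf L r q c t (Ps L q a s U)) + min 1 (Wf L r q c t (Ps L q a (-s) U))) ≤
      n * (6 * EX μ L β (fun U : Ed (e + 3) (2 * m) → G => Wf L r q c t U) + 6 * X) := by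
    calc _ ≤ ∑ _a : Fin n, (6 * EX μ L β (fun U : Ed (e + 3) (2 * m) → G => Wf L r q c t U) +
          6 * X) := Finset.sum_le_sum fun a _ => h1 a
      _ = _ := by rw [Finset.sum_const, Finset.card_univ, Fintype.card_fin, nsmul_eq_mul]
  have h3 : EX μ L β (fun U : Ed (e + 3) (2 * m) → G => (s / t * Er L r q s U) ^ 2) =
      (s / t * en μ L β (fun U : Ed (e + 3) (2 * m) → G => Er L r q s U)) ^ 2 := by
    have e1 : (fun U : Ed (e + 3) (2 * m) → G => (s / t * Er L r q s U) ^ 2) =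
        fun U => (s / t) ^ 2 * Er L r q s U ^ 2 := by funext U; ring
    rw [e1, EX_smul, mul_pow, en_sq]
  rw [h3] at h
  linarith

/-- **lower bound of the variance** -/
theorem var_lowf (hn : 1 ≤ n) (hN : 1 ≤ N) (e : ℕ) {C0 : ℝ} (hC0 : 0 < C0)
    (hcar : ∀ g : G, dv L g ^ 2 ≤ ∑ a, fi L a g ^ 2 + C0 * dv L g ^ 4) {A : ℝ} (hA : 1 ≤ A) :
    ∃ c1 cv : ℝ, 0 < c1 ∧ c1 ≤ 1 ∧ 0 < cv ∧ ∀ (r q : ℕ) (β lam a0 : ℝ), q = 2 ^ r → 0 < β →
      1 ≤ lam → 0 ≤ a0 → a0 ^ 2 ≤ A * lam / β → (q : ℝ) ^ 2 * ((r + 3 : ℕ) * lam) ≤ c1 * β →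
      (q : ℝ) ^ (e + 1) * lam ^ 2 ≤ c1 * β → ∀ (m : ℕ) [NeZero m], 5 * q < 2 * m →
      SB μ L (e + 3) m β (fun k => a0 * Real.sqrt (2 ^ k)) (r + 3) →
      ∀ c : (Ed (e + 3) (2 * m) → G) → ℝ, Continuous c →
      (∀ (a : Fin n) (s : ℝ) (U : Ed (e + 3) (2 * m) → G), c (Ps L q a s U) = c U) →
      cv * ((q : ℝ) ^ 2 / (β * (q : ℝ) ^ (e + 1))) ≤
        EX μ L β (fun U : Ed (e + 3) (2 * m) → G => (‖psi L r q U‖ - c U) ^ 2) := by
  have hn0 : (1 : ℝ) ≤ n := by exact_mod_cast hn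
  have hN0 : (1 : ℝ) ≤ N := by exact_mod_cast hN
  have hA0' : 0 < A := by linarith
  have hCE := CE_ge e N hA0'.le
  obtain ⟨A0, hA0⟩ : ∃ A0 : ℝ, A0 = 10 * ((e : ℝ) + 3) ^ 2 := ⟨_, rfl⟩
  have hA0p : 0 < A0 := by rw [hA0]; positivity
  obtain ⟨B1, hB1⟩ : ∃ B1 : ℝ, B1 = 2 ^ (e + 2) * (16 * n) * (34 * A0 + 1) :=
    ⟨_, rfl⟩
  obtain ⟨B2, hB2⟩ : ∃ B2 : ℝ, B2 = 2 ^ (e + 2) * (2 * Real.sqrt C0 *
    (18 * A0) ^ 2) := ⟨_, rfl⟩
  have hB1p : 0 < B1 := by rw [hB1]; positivity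
  have hB2p : 0 < B2 := by
    have : 0 < Real.sqrt C0 := Real.sqrt_pos.2 hC0
    rw [hB2]; positivity
  obtain ⟨K1, hK1⟩ : ∃ K1 : ℝ, K1 = 24 * n * CE e N A := ⟨_, rfl⟩
  have hK1p : 0 < K1 := by rw [hK1]; positivity
  have hK11 : 1 ≤ K1 := by
    rw [hK1]
    nlinarith
  obtain ⟨Y, hY⟩ : ∃ Y : ℝ, Y = (4 * B1 ^ 2 + 16 * K1 * B2 ^ 2 + 1) * A ^ 2 := ⟨_, rfl⟩
  have hYp : 0 < Y := by rw [hY]; positivity
  have hA2 : A ≤ A ^ 2 := by nlinarith
  have hA1 : 1 ≤ A ^ 2 := by nlinarith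
  have hBB : 0 ≤ 4 * B1 ^ 2 + 16 * K1 * B2 ^ 2 := by positivity
  have hY1 : 1 ≤ Y := by
    rw [hY]
    nlinarith
  refine ⟨1 / Y, (1 / (16 * n) * (1 / 2) ^ (e + 2)) ^ 2 / (K1 * (4 * (1 + 6 * n))), by positivity,
    ?_, by positivity, fun r q β lam a0 hqr hβ0 hlam ha0 haA hq1β hq2β m _ hqm hS c hc hcP => ?_⟩
  · rw [div_le_one hYp]
    exact hY1
  have hq : 1 ≤ q := by rw [hqr]; exact Nat.one_le_two_pow
  have hq1 : (1 : ℝ) ≤ q := by exact_mod_cast hq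
  have hq0 : (0 : ℝ) < q := by linarith
  have hlam0 : 0 < lam := by linarith
  have hq1β' : (q : ℝ) ^ 2 * ((r + 3 : ℕ) * lam) * Y ≤ β := by
    rw [one_div, inv_mul_eq_div, le_div_iff₀ hYp] at hq1β
    exact hq1β
  have hq2β' : (q : ℝ) ^ (e + 1) * lam ^ 2 * Y ≤ β := by
    rw [one_div, inv_mul_eq_div, le_div_iff₀ hYp] at hq2β
    exact hq2β
  have hr3 : (1 : ℝ) ≤ ((r + 3 : ℕ) : ℝ) := by exact_mod_cast (by omega : 1 ≤ r + 3)
  have hrl : 1 ≤ ((r + 3 : ℕ) : ℝ) * lam := one_le_mul_of_one_le_of_one_le hr3 hlam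
  have hb2 : (q : ℝ) ^ 2 * ((r + 3 : ℕ) * lam) ≤ β :=
    le_trans (le_mul_of_one_le_right (by positivity) hY1) hq1β'
  have hb1 : (q : ℝ) ^ 2 ≤ β := le_trans (le_mul_of_one_le_right (by positivity) hrl) hb2
  have hm2 : 2 ≤ m := by omega
  obtain ⟨Q, hQ⟩ : ∃ Q : ℝ, Q = (q : ℝ) ^ (e + 1) := ⟨_, rfl⟩
  have hQ1 : 1 ≤ Q := by rw [hQ]; exact one_le_pow₀ hq1
  have hQp : 0 < Q := by linarith
  have hQq' : (q : ℝ) ≤ Q := by
    rw [hQ]
    calc (q : ℝ) = (q : ℝ) ^ 1 := (pow_one _).symm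
      _ ≤ _ := pow_le_pow_right₀ hq1 (by omega)
  rw [← hQ] at hq2β'
  obtain ⟨R, hR⟩ : ∃ R, R = Real.sqrt (A * lam * q / β) := ⟨_, rfl⟩
  have hR0 : 0 < R := by rw [hR]; exact Real.sqrt_pos.2 (by positivity)
  have hR2 : R ^ 2 = A * lam * q / β := by rw [hR, Real.sq_sqrt (by positivity)]
  -- the size of the shift
  obtain ⟨s, hs⟩ : ∃ s, s = 1 / Real.sqrt (K1 * β * Q) := ⟨_, rfl⟩
  have hKQ : 0 < K1 * β * Q := by positivity
  have hs0 : 0 < s := by rw [hs]; positivity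
  have hs2 : s ^ 2 = 1 / (K1 * β * Q) := by
    rw [hs, div_pow, one_pow, Real.sq_sqrt hKQ.le]
  have hsr : s * q ≤ R := by
    have h1 : (s * q) ^ 2 ≤ R ^ 2 := by
      rw [mul_pow, hs2, hR2, one_div, inv_mul_eq_div, div_le_div_iff₀ hKQ hβ0]
      calc (q : ℝ) ^ 2 * β = q * β * q := by ring
        _ ≤ q * β * Q := mul_le_mul_of_nonneg_left hQq' (by positivity)
        _ = 1 * 1 * q * (1 * β * Q) := by ring
        _ ≤ A * lam * q * (K1 * β * Q) := by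
            refine mul_le_mul (mul_le_mul_of_nonneg_right (mul_le_mul hA hlam zero_le_one
              hA0'.le) hq0.le) (mul_le_mul_of_nonneg_right
              (mul_le_mul_of_nonneg_right hK11 hβ0.le) hQp.le) (by positivity) (by positivity)
    exact (pow_le_pow_iff_left₀ (by positivity) hR0.le two_ne_zero).1 h1
  obtain ⟨K, hK⟩ : ∃ K, K = Kb e q m := ⟨_, rfl⟩
  have hKl : (1 / 2 : ℝ) ^ (e + 2) * q ≤ K := by rw [hK]; exact Kb_ge hq hqm
  have hK0 : 0 < K := lt_of_lt_of_le (by positivity) hKl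
  obtain ⟨y, hy⟩ : ∃ y, y = s * K := ⟨_, rfl⟩
  have hy0 : 0 < y := by rw [hy]; positivity
  obtain ⟨t, ht⟩ : ∃ t, t = 1 / (16 * (n : ℝ)) * y := ⟨_, rfl⟩
  have ht0 : 0 < t := by rw [ht]; positivity
  have hX : ∀ (a : Fin n) (s' : ℝ), s' ^ 2 = s ^ 2 →
      EX μ L β (fun U : Ed (e + 3) (2 * m) → G => XX L β q a s' U) ≤
        CE e N A * (s ^ 2 * β * (q : ℝ) ^ (e + 1)) := fun a s' h => by
    rw [← h]
    exact XX_bound μ hm2 hN hβ0 ha0 hA0'.le hlam0.le haA hS hqr (by omega) hb1 hb2 a s'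
  have key := union_EXf μ (L := L) (β := β) hn hq hqr hqm hC0.le hcar hs0 (y := y) (by rw [hy, hK])
    hy0 hc hcP ht (fun a => hX a s rfl) (fun a => hX a (-s) (by ring))
  obtain ⟨S, hSS⟩ : ∃ S : ℕ → ℝ, S = fun k => a0 * Real.sqrt (2 ^ k) := ⟨_, rfl⟩
  have hu : un e S r ≤ A0 * R := by
    rw [hSS]
    refine (un_le hqr ha0).trans ?_
    rw [hA0]
    refine mul_le_mul_of_nonneg_left ?_ (by positivity)
    have h1 : (a0 * Real.sqrt q) ^ 2 ≤ R ^ 2 := by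
      rw [mul_pow, Real.sq_sqrt hq0.le, hR2]
      calc a0 ^ 2 * (q : ℝ) ≤ A * lam / β * q := mul_le_mul_of_nonneg_right haA hq0.le
        _ = _ := by ring
    exact (pow_le_pow_iff_left₀ (by positivity) hR0.le two_ne_zero).1 h1
  rw [← hSS] at hS
  have hu0 := un_nonneg (e := e) (r := r) hS.nn
  have hYr : (4 * B1 ^ 2) * R ^ 2 ≤ 1 := by
    rw [hR2, ← mul_div_assoc, div_le_one hβ0]
    have h1 : (4 * B1 ^ 2) * A ≤ Y := by
      rw [hY]
      have h3 : 4 * B1 ^ 2 ≤ 4 * B1 ^ 2 + 16 * K1 * B2 ^ 2 + 1 := by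
        have : 0 ≤ 16 * K1 * B2 ^ 2 := by positivity
        linarith
      exact mul_le_mul h3 hA2 hA0'.le (by positivity)
    have h2 : lam * q ≤ (q : ℝ) ^ 2 * ((r + 3 : ℕ) * lam) := by
      have h3 : (q : ℝ) ≤ (q : ℝ) ^ 2 * ((r + 3 : ℕ) : ℝ) := by
        calc (q : ℝ) = q * 1 * 1 := by ring
          _ ≤ q * q * ((r + 3 : ℕ) : ℝ) :=
            mul_le_mul (mul_le_mul_of_nonneg_left hq1 hq0.le) hr3 zero_le_one (by positivity)
          _ = _ := by ring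
      calc lam * q ≤ lam * ((q : ℝ) ^ 2 * ((r + 3 : ℕ) : ℝ)) :=
            mul_le_mul_of_nonneg_left h3 hlam0.le
        _ = _ := by ring
    calc 4 * B1 ^ 2 * (A * lam * q) = (4 * B1 ^ 2 * A) * (lam * q) := by ring
      _ ≤ Y * ((q : ℝ) ^ 2 * ((r + 3 : ℕ) * lam)) := mul_le_mul h1 h2 (by positivity) hYp.le
      _ = (q : ℝ) ^ 2 * ((r + 3 : ℕ) * lam) * Y := by ring
      _ ≤ _ := hq1β'
  have h2p : (1 / 2 : ℝ) ^ (e + 2) * 2 ^ (e + 2) = 1 := by
    rw [← mul_pow]; norm_num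
  have hp0 : (0 : ℝ) < 2 ^ (e + 2) := by positivity
  -- the first term
  have t1 : 6 * n * (CE e N A * (s ^ 2 * β * (q : ℝ) ^ (e + 1))) = 1 / 4 := by
    rw [hs2, ← hQ, hK1]
    field_simp
    ring
  -- the second term
  have t2 : (s / t * en μ L β (fun U : Ed (e + 3) (2 * m) → G => Er L r q s U)) ^ 2 ≤
      1 / 4 := by
    have k1 := Er_en μ (L := L) (e := e) hS hq hqr hqm s
    rw [abs_of_pos hs0] at k1
    have k2 : s / t * en μ L β (fun U : Ed (e + 3) (2 * m) → G => Er L r q s U) ≤ B1 * R := by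
      have k3 : s / t ≤ 2 ^ (e + 2) * (16 * n) / q := by
        rw [ht, hy, div_le_div_iff₀ (by positivity) hq0]
        have k4 : (1 : ℝ) * q ≤ 2 ^ (e + 2) * K := by
          calc (1 : ℝ) * q = 2 ^ (e + 2) * ((1 / 2 : ℝ) ^ (e + 2) * q) := by
                rw [← mul_assoc, mul_comm (2 ^ (e + 2) : ℝ), h2p]
            _ ≤ _ := mul_le_mul_of_nonneg_left hKl hp0.le
        calc s * q = s * (1 * q) := by ring
          _ ≤ s * (2 ^ (e + 2) * K) := mul_le_mul_of_nonneg_left k4 hs0.le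
          _ = 2 ^ (e + 2) * (16 * n) * (1 / (16 * n) * (s * K)) := by field_simp
      have k5 : 34 * un e S r + s * q ≤ (34 * A0 + 1) * R := by linarith
      calc _ ≤ 2 ^ (e + 2) * (16 * n) / q * (q * (34 * un e S r + s * q)) :=
            mul_le_mul k3 k1 (en_nonneg μ _) (by positivity)
        _ = 2 ^ (e + 2) * (16 * n) * (34 * un e S r + s * q) := by
            field_simp
        _ ≤ 2 ^ (e + 2) * (16 * n) * ((34 * A0 + 1) * R) :=
            mul_le_mul_of_nonneg_left k5 (by positivity)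
        _ = B1 * R := by rw [hB1]; ring
    have k0 : 0 ≤ s / t * en μ L β (fun U : Ed (e + 3) (2 * m) → G => Er L r q s U) :=
      mul_nonneg (by positivity) (en_nonneg μ _)
    have k7 := pow_le_pow_left₀ k0 k2 2
    have k8 : (B1 * R) ^ 2 ≤ 1 / 4 := by
      rw [mul_pow]
      linarith
    exact k7.trans k8
  -- the third term
  have t3 : 1 / y * EX μ L β (fun U : Ed (e + 3) (2 * m) → G => Nr L C0 r q U) ≤ 1 / 4 := by
    have k1 := EX_Nr μ (L := L) (e := e) hS hq hqr hqm hC0.le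
    have k2 : (18 * un e S r) ^ 2 ≤ (18 * A0) ^ 2 * R ^ 2 := by
      rw [← mul_pow]
      refine pow_le_pow_left₀ (by positivity) ?_ 2
      linarith
    have k3 : EX μ L β (fun U : Ed (e + 3) (2 * m) → G => Nr L C0 r q U) ≤
        2 * Real.sqrt C0 * ((18 * A0) ^ 2 * R ^ 2) :=
      k1.trans (mul_le_mul_of_nonneg_left k2 (by positivity))
    have k4 : s * q ≤ 2 ^ (e + 2) * y := by
      rw [hy]
      calc s * q = s * (2 ^ (e + 2) * ((1 / 2 : ℝ) ^ (e + 2) * q)) := by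
            rw [← mul_assoc (2 ^ (e + 2) : ℝ), mul_comm (2 ^ (e + 2) : ℝ), h2p, one_mul]
        _ ≤ s * (2 ^ (e + 2) * K) :=
            mul_le_mul_of_nonneg_left (mul_le_mul_of_nonneg_left hKl hp0.le) hs0.le
        _ = _ := by ring
    have k5 : 1 / y * EX μ L β (fun U : Ed (e + 3) (2 * m) → G => Nr L C0 r q U) ≤
        B2 * R ^ 2 / (s * q) := by
      rw [one_div, inv_mul_le_iff₀ hy0]
      refine k3.trans ?_
      rw [← mul_div_assoc, le_div_iff₀ (by positivity)]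
      calc 2 * Real.sqrt C0 * ((18 * A0) ^ 2 * R ^ 2) * (s * q) ≤
          2 * Real.sqrt C0 * ((18 * A0) ^ 2 * R ^ 2) * (2 ^ (e + 2) * y) :=
            mul_le_mul_of_nonneg_left k4 (by positivity)
        _ = _ := by rw [hB2]; ring
    refine k5.trans ?_
    rw [div_le_iff₀ (by positivity)]
    have k6 : (B2 * R ^ 2) ^ 2 ≤ (1 / 4 * (s * q)) ^ 2 := by
      have e1 : (1 / 4 * (s * q)) ^ 2 = (q : ℝ) ^ 2 / (16 * K1 * Q * β) := by
        rw [mul_pow, mul_pow, hs2]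
        field_simp
        norm_num
      have e2 : (B2 * R ^ 2) ^ 2 = (q : ℝ) ^ 2 * (B2 ^ 2 * A ^ 2 * lam ^ 2) / β ^ 2 := by
        rw [hR2]
        field_simp
      rw [e1, e2, div_le_div_iff₀ (by positivity) (by positivity)]
      have e3 : (B2 ^ 2 * A ^ 2 * lam ^ 2) * (16 * K1 * Q) ≤ β := by
        have k7 : 16 * K1 * B2 ^ 2 * A ^ 2 ≤ Y := by
          rw [hY]
          refine mul_le_mul_of_nonneg_right ?_ (by positivity)
          have : 0 ≤ 4 * B1 ^ 2 := by positivity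
          linarith
        calc (B2 ^ 2 * A ^ 2 * lam ^ 2) * (16 * K1 * Q) =
              (Q * lam ^ 2) * (16 * K1 * B2 ^ 2 * A ^ 2) := by ring
          _ ≤ (Q * lam ^ 2) * Y := mul_le_mul_of_nonneg_left k7 (by positivity)
          _ ≤ _ := hq2β'
      calc (q : ℝ) ^ 2 * (B2 ^ 2 * A ^ 2 * lam ^ 2) * (16 * K1 * Q * β) =
            ((q : ℝ) ^ 2 * β) * ((B2 ^ 2 * A ^ 2 * lam ^ 2) * (16 * K1 * Q)) := by ring
        _ ≤ ((q : ℝ) ^ 2 * β) * β := mul_le_mul_of_nonneg_left e3 (by positivity)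
        _ = _ := by ring
    exact (pow_le_pow_iff_left₀ (by positivity) (by positivity) two_ne_zero).1 k6
  -- conclusion
  have hW : 1 / (4 * (1 + 6 * (n : ℝ))) ≤
      EX μ L β (fun U : Ed (e + 3) (2 * m) → G => Wf L r q c t U) := by
    rw [div_le_iff₀ (by positivity)]
    linarith
  have hWe : EX μ L β (fun U : Ed (e + 3) (2 * m) → G => Wf L r q c t U) =
      (1 / t) ^ 2 * EX μ L β (fun U : Ed (e + 3) (2 * m) → G => (‖psi L r q U‖ - c U) ^ 2) := by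
    rw [← EX_smul]
    congr 1
    funext U
    unfold Wf
    ring
  rw [hWe] at hW
  have hf : t ^ 2 / (4 * (1 + 6 * (n : ℝ))) ≤
      EX μ L β (fun U : Ed (e + 3) (2 * m) → G => (‖psi L r q U‖ - c U) ^ 2) := by
    have h1 := mul_le_mul_of_nonneg_left hW (sq_nonneg t)
    rw [← mul_assoc, ← mul_pow, mul_one_div_cancel ht0.ne', one_pow, one_mul] at h1
    rw [div_eq_mul_one_div]
    exact h1
  refine le_trans ?_ hf
  have ht2 : (1 / (16 * (n : ℝ)) * (1 / 2) ^ (e + 2)) ^ 2 * (s * q) ^ 2 ≤ t ^ 2 := by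
    rw [← mul_pow]
    refine pow_le_pow_left₀ (by positivity) ?_ 2
    rw [ht, hy]
    calc 1 / (16 * (n : ℝ)) * (1 / 2) ^ (e + 2) * (s * q) =
        1 / (16 * (n : ℝ)) * (s * ((1 / 2) ^ (e + 2) * q)) := by ring
      _ ≤ _ := mul_le_mul_of_nonneg_left (mul_le_mul_of_nonneg_left hKl hs0.le) (by positivity)
  have h3 : (1 / (16 * (n : ℝ)) * (1 / 2) ^ (e + 2)) ^ 2 / (K1 * (4 * (1 + 6 * n))) *
      ((q : ℝ) ^ 2 / (β * (q : ℝ) ^ (e + 1))) =
      (1 / (16 * (n : ℝ)) * (1 / 2) ^ (e + 2)) ^ 2 * (s * q) ^ 2 / (4 * (1 + 6 * (n : ℝ))) := by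
    rw [mul_pow (s : ℝ), hs2, ← hQ]
    field_simp
  rw [h3]
  exact div_le_div_of_nonneg_right ht2 (by positivity)

end

end Pool.Agent.MG990.H31YM
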