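import Mathlib
import Pool.Agent.R990.MG.Fin
import Pool.Agent.Helper31_YM.VarF
import Pool.Agent.Helper31_YM.Cond
import Pool.Agent.Helper31_YM.Spec

/-!
# Observables of separated blocks
-/

open MeasureTheory Matrix Filter
open scoped Matrix.Norms.Frobenius Topology
open Pool.Agent.H906R3.YM hiding Pl
open Pool.Agent.W793.YM Pool.Agent.TH618.YM Pool.Agent.Y14
open Pool.Agent.H31YM

namespace Pool.Agent.MG990.H31YM

set_option linter.unusedSectionVars false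
set_option linter.unusedVariables false

noncomputable section

section geo

variable {e m : ℕ} [NeZero m] {q : ℕ}

/-- the interior links of the block at `y` -/
def inn (q : ℕ) (y : Fin (e + 3) → ZMod (2 * m)) (f : Ed (e + 3) (2 * m)) : Prop :=
  f.2 = 0 ∧ kk q (f.1 - y) ≠ 0

instance (q : ℕ) (y : Fin (e + 3) → ZMod (2 * m)) : DecidablePred (inn q y) :=
  Classical.decPred _

/-- the position of a block -/
def bp (m q : ℕ) (z : Fin (e + 3) → ℕ) : Fin (e + 3) → ZMod (2 * m) :=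
  fun k => ((8 * q * z k : ℕ) : ZMod (2 * m))

lemma cast8 {K a b s t : ℕ} (hK : 8 * q * K ≤ 2 * m) (ha : a < K) (hb : b < K)
    (hs : s < 8 * q) (ht : t < 8 * q)
    (h : ((8 * q * a : ℕ) : ZMod (2 * m)) + (s : ℕ) = ((8 * q * b : ℕ) : ZMod (2 * m)) + (t : ℕ)) :
    a = b := by
  have h1 : ∀ c u : ℕ, c < K → u < 8 * q → 8 * q * c + u < 2 * m := by
    intro c u hc hu
    calc 8 * q * c + u < 8 * q * c + 8 * q := by omega
      _ = 8 * q * (c + 1) := by ring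
      _ ≤ 8 * q * K := Nat.mul_le_mul_left _ hc
      _ ≤ 2 * m := hK
  have h2 : ((8 * q * a + s : ℕ) : ZMod (2 * m)) = ((8 * q * b + t : ℕ) : ZMod (2 * m)) := by
    push_cast at h ⊢
    exact h
  have h3 := congrArg ZMod.val h2
  rw [ZMod.val_natCast_of_lt (h1 a s ha hs), ZMod.val_natCast_of_lt (h1 b t hb ht)] at h3
  have h4 : ∀ c u : ℕ, u < 8 * q → (8 * q * c + u) / (8 * q) = c := by
    intro c u hu
    rw [Nat.add_comm, Nat.add_mul_div_left _ _ (by omega), Nat.div_eq_of_lt hu, zero_add]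
  rw [← h4 a s hs, h3, h4 b t ht]

lemma kk_lt (hq : 1 ≤ q) {x : Fin (e + 3) → ZMod (2 * m)} (h : kk q x ≠ 0) (k : Fin (e + 3)) :
    wv x k < 4 * q := by
  have h1 := kk_ne hq h
  by_cases hk : k = 0
  · subst hk; omega
  · exact (h1.2 k hk).2

lemma wv_cast (x : Fin (e + 3) → ZMod (2 * m)) (k : Fin (e + 3)) :
    ((wv x k : ℕ) : ZMod (2 * m)) = x k := ZMod.natCast_zmod_val _

lemma eT_cast (i k : Fin (e + 3)) : ∃ t : ℕ, t ≤ 1 ∧ (eT i : Fin (e + 3) → ZMod (2 * m)) k = t := by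
  by_cases h : k = i
  · exact ⟨1, le_rfl, by subst h; simp [eT]⟩
  · exact ⟨0, zero_le_one, by simp [eT, h]⟩

lemma PT_inn (hq : 1 ≤ q) {y x : Fin (e + 3) → ZMod (2 * m)} {i j : Fin (e + 3)}
    (h : PT (inn q y) x i j) (k : Fin (e + 3)) :
    ∃ s t : ℕ, s < 4 * q ∧ t ≤ 1 ∧ x k + (t : ℕ) = y k + (s : ℕ) := by
  have key : ∀ δ : Fin (e + 3) → ZMod (2 * m), (∃ t : ℕ, t ≤ 1 ∧ δ k = t) →
      kk q (x + δ - y) ≠ 0 → ∃ s t : ℕ, s < 4 * q ∧ t ≤ 1 ∧ x k + (t : ℕ) = y k + (s : ℕ) := by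
    rintro δ ⟨t, ht, hδ⟩ hk
    refine ⟨wv (x + δ - y) k, t, kk_lt hq hk k, ht, ?_⟩
    rw [wv_cast, Pi.sub_apply, Pi.add_apply, hδ]
    ring
  unfold PT inn at h
  rcases h with h | h | h | h
  · refine key 0 ⟨0, zero_le_one, by simp⟩ ?_
    rw [add_zero]
    exact h.2
  · exact key (eT i) (eT_cast i k) h.2
  · exact key (eT j) (eT_cast j k) h.2
  · refine key 0 ⟨0, zero_le_one, by simp⟩ ?_
    rw [add_zero]
    exact h.2

lemma sep_inn (hq : 1 ≤ q) {K : ℕ} (hK : 8 * q * K ≤ 2 * m) {z z' : Fin (e + 3) → ℕ}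
    (hz : ∀ k, z k < K) (hz' : ∀ k, z' k < K) (hne : z ≠ z')
    (w : Fin (e + 3) → ZMod (2 * m)) :
    Sep (inn q (bp m q z - w)) (inn q (bp m q z' - w)) := by
  rintro x i j - ⟨h1, h2⟩
  obtain ⟨k, hk⟩ := Function.ne_iff.1 hne
  obtain ⟨s, t, hs, ht, h3⟩ := PT_inn hq h1 k
  obtain ⟨s', t', hs', ht', h4⟩ := PT_inn hq h2 k
  refine hk (cast8 (m := m) hK (hz k) (hz' k) (s := s + t') (t := s' + t) (by omega) (by omega) ?_)
  rw [Pi.sub_apply] at h3 h4
  unfold bp at h3 h4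
  push_cast at h3 h4 ⊢
  linear_combination (-1 : ZMod (2 * m)) * h3 + h4

end geo

variable {G : Type*} [Group G] [TopologicalSpace G] [IsTopologicalGroup G] [CompactSpace G]
  [SecondCountableTopology G] [MeasurableSpace G] [BorelSpace G] (μ : Measure G)
  [IsProbabilityMeasure μ] [μ.IsMulLeftInvariant] [μ.IsMulRightInvariant] [μ.IsInvInvariant]
  {N n : ℕ} {L : LD G N n} {e m : ℕ} [NeZero m] {q : ℕ} {β : ℝ} {r : ℕ}

/-- the displacement in the time -/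
def wT (e m q : ℕ) : Fin (e + 3) → ZMod (2 * m) := (2 * q) • eT (Fin.last (e + 2))

lemma wT_ne {k : Fin (e + 3)} (h : k ≠ Fin.last (e + 2)) : wT e m q k = 0 := by
  unfold wT
  simp [eT, h]

variable (L) in
/-- the observable of a block -/
def Oz (r q : ℕ) (z : Fin (e + 3) → ℕ) (U : Ed (e + 3) (2 * m) → G) : ℝ :=
  Fq L r q (tr (bp m q z) U)

lemma Oz_cont (z : Fin (e + 3) → ℕ) : Continuous fun U : Ed (e + 3) (2 * m) → G =>
    Oz L r q z U := Fq_cont.comp (tr_cont _)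

lemma Oz_dep (hq : 1 ≤ q) (hqr : q = 2 ^ r) {K : ℕ} (hK : 8 * q * K ≤ 2 * m)
    {z z' : Fin (e + 3) → ℕ} (hz : ∀ k, z k < K) (hz' : ∀ k, z' k < K)
    (hl : z (Fin.last (e + 2)) = z' (Fin.last (e + 2))) (hne : z ≠ z') :
    Dep (fun f => ¬inn q (bp m q z' - wT e m q) f)
      (fun U : Ed (e + 3) (2 * m) → G => Oz L r q z U) := by
  intro U U' h
  show Fq L r q (tr (bp m q z) U) = Fq L r q (tr (bp m q z) U')
  rw [Fq_tr, Fq_tr]
  refine congrArg norm (phi_congr hqr fun w1 hw1 hl1 i hi => h _ ?_)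
  rintro ⟨-, h2⟩
  obtain ⟨k, hk⟩ := Function.ne_iff.1 hne
  have hkl : k ≠ Fin.last (e + 2) := fun h3 => hk (by rw [h3, hl])
  have h3 : wv (bp m q z + dsp eT w1 - (bp m q z' - wT e m q)) k < 4 * q := kk_lt hq h2 k
  refine hk (cast8 (m := m) hK (hz k) (hz' k) (s := w1.count k)
    (t := wv (bp m q z + dsp eT w1 - (bp m q z' - wT e m q)) k) (by have := hw1 k; omega)
    (by omega) ?_)
  rw [wv_cast]
  simp only [Pi.sub_apply, Pi.add_apply, wT_ne hkl, dsp_apply]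
  unfold bp
  ring

/-- the lower bound of the variance of the sums -/
theorem low_sum (hq : 1 ≤ q) (hqr : q = 2 ^ r) {v : ℝ}
    (hv : ∀ c : (Ed (e + 3) (2 * m) → G) → ℝ, Continuous c →
      (∀ (a : Fin n) (s : ℝ) (U : Ed (e + 3) (2 * m) → G), c (Ps L q a s U) = c U) →
      v ≤ EX μ L β (fun U : Ed (e + 3) (2 * m) → G => (‖psi L r q U‖ - c U) ^ 2))
    {K : ℕ} (hK : 8 * q * K ≤ 2 * m) {ι : Type*} [Fintype ι] [DecidableEq ι]
    {z : ι → Fin (e + 3) → ℕ} (hz : ∀ i k, z i k < K)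
    (hl : ∀ i, z i (Fin.last (e + 2)) = 0) (hinj : Function.Injective z) (a : ι → ℝ) (c : ℝ) :
    v * ∑ i, a i ^ 2 ≤ EX μ L β (fun U : Ed (e + 3) (2 * m) → G =>
      (∑ i, a i * Oz L r q (z i) U - c) ^ 2) := by
  refine gram_low μ (p := fun i => inn q (bp m q (z i) - wT e m q))
    (fun i j hij => sep_inn hq hK (hz i) (hz j) (fun h => hij (hinj h)) _)
    (F := fun i U => Oz L r q (z i) U) (fun i => Oz_cont (z i))
    (fun i j hij => Oz_dep hq hqr hK (hz i) (hz j) (by rw [hl, hl]) fun h => hij (hinj h))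
    (fun i g hg hgd => ?_) a c
  obtain ⟨y, hy⟩ : ∃ y, y = bp m q (z i) - wT e m q := ⟨_, rfl⟩
  simp only [← hy] at hgd
  obtain ⟨H, hH⟩ : ∃ H : (Ed (e + 3) (2 * m) → G) → ℝ, ∀ V, H V =
    (‖psi L r q V‖ - g (tr (-y) V)) ^ 2 := ⟨_, fun V => rfl⟩
  have h1 : (fun U : Ed (e + 3) (2 * m) → G => (Oz L r q (z i) U - g U) ^ 2) =
      fun U => H (tr y U) := by
    funext U
    rw [hH, norm_psi, ← Fq_tr, tr_tr, tr_tr]
    unfold Oz
    have e1 : (2 * q) • eT (Fin.last (e + 2)) + y = bp m q (z i) := by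
      rw [hy]
      unfold wT
      abel
    rw [e1, neg_add_cancel, tr_zero]
  have h2 : EX μ L β H = EX μ L β (fun V : Ed (e + 3) (2 * m) → G =>
      (‖psi L r q V‖ - g (tr (-y) V)) ^ 2) := congrArg (EX μ L β) (funext hH)
  rw [h1, EX_tr μ y H, h2]
  refine hv (fun V => g (tr (-y) V)) (hg.comp (tr_cont _)) fun a s U => hgd _ _ fun f hf => ?_
  show Ps L q a s U (f.1 + -y, f.2) = U (f.1 + -y, f.2)
  refine Ps_eq ?_
  rw [← sub_eq_add_neg]
  exact hf

/-- the matrix of the variations -/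
def MD (μ : Measure G) (L : LD G N n) (β : ℝ) (r q : ℕ) {ι : Type*} (z : ι → Fin (e + 3) → ℕ)
    (m : ℕ) [NeZero m] : Matrix ι ι ℝ := fun i j =>
  EX μ L β (fun U : Ed (e + 3) (2 * m) → G =>
    (Oz L r q (z i) (tr (eT (Fin.last (e + 2))) U) - Oz L r q (z i) U) *
      (Oz L r q (z j) (tr (eT (Fin.last (e + 2))) U) - Oz L r q (z j) U))

lemma MD_symm {ι : Type*} (z : ι → Fin (e + 3) → ℕ) (i j : ι) :
    MD μ L β r q z m i j = MD μ L β r q z m j i := by
  unfold MD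
  exact congrArg (EX μ L β) (funext fun U => mul_comm _ _)

lemma MD_sum {ι : Type*} [Fintype ι] (z : ι → Fin (e + 3) → ℕ) (a : ι → ℝ) :
    ∑ i, ∑ j, a i * a j * MD μ L β r q z m i j = EX μ L β (fun U : Ed (e + 3) (2 * m) → G =>
      (∑ i, a i * Oz L r q (z i) (tr (eT (Fin.last (e + 2))) U) -
        ∑ i, a i * Oz L r q (z i) U) ^ 2) := by
  obtain ⟨D, hD⟩ : ∃ D : ι → (Ed (e + 3) (2 * m) → G) → ℝ, D = fun i U =>
    Oz L r q (z i) (tr (eT (Fin.last (e + 2))) U) - Oz L r q (z i) U := ⟨_, rfl⟩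
  have hDc : ∀ i, Continuous (D i) := fun i => by
    rw [hD]
    exact ((Oz_cont (z i)).comp (tr_cont _)).sub (Oz_cont (z i))
  have h1 : (fun U : Ed (e + 3) (2 * m) → G =>
      (∑ i, a i * Oz L r q (z i) (tr (eT (Fin.last (e + 2))) U) -
        ∑ i, a i * Oz L r q (z i) U) ^ 2) =
      fun U => ∑ i, ∑ j, a i * a j * (D i U * D j U) := by
    funext U
    rw [← Finset.sum_sub_distrib, sq, Finset.sum_mul_sum, hD]
    exact Finset.sum_congr rfl fun i _ => Finset.sum_congr rfl fun j _ => by ring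
  have cc : ∀ i j, Continuous fun U => a i * a j * (D i U * D j U) :=
    fun i j => continuous_const.mul ((hDc i).mul (hDc j))
  have cc' : ∀ i, Continuous fun U => ∑ j, a i * a j * (D i U * D j U) :=
    fun i => continuous_finsetSum _ fun j _ => cc i j
  rw [h1, EX_sum μ Finset.univ (fun i _ => cc' i)]
  refine Finset.sum_congr rfl fun i _ => ?_
  rw [EX_sum μ Finset.univ (fun j _ => cc i j)]
  refine Finset.sum_congr rfl fun j _ => ?_
  rw [EX_smul, hD]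
  rfl

lemma MD_diag {ι : Type*} (z : ι → Fin (e + 3) → ℕ) (i : ι) :
    MD μ L β r q z m i i = EX μ L β (fun U : Ed (e + 3) (2 * m) → G =>
      (Fq L r q (tr (eT (Fin.last (e + 2))) U) - Fq L r q U) ^ 2) := by
  have h := EX_tr μ (L := L) (β := β) (bp m q (z i)) (fun U : Ed (e + 3) (2 * m) → G =>
      (Fq L r q (tr (eT (Fin.last (e + 2))) U) - Fq L r q U) ^ 2)
  rw [← h]
  unfold MD Oz
  refine congrArg (EX μ L β) (funext fun U => ?_)
  rw [tr_tr, tr_tr, add_comm (bp m q (z i)), sq]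

end

end Pool.Agent.MG990.H31YM
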