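import Mathlib
import Pool.Agent.Helper31_YM.Block

/-!
# Correlations of sums of observables of separated blocks
-/

open MeasureTheory Matrix Filter
open scoped Matrix.Norms.Frobenius Topology
open Pool.Agent.H906R3.YM hiding Pl
open Pool.Agent.W793.YM Pool.Agent.TH618.YM Pool.Agent.Y14
open Pool.Agent.H31YM

namespace Pool.Agent.MG990.H31YM

set_option linter.unusedSectionVars false
set_option linter.unusedVariables false

noncomputable section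

variable {G : Type*} [Group G] [TopologicalSpace G] [IsTopologicalGroup G] [CompactSpace G]
  [SecondCountableTopology G] [MeasurableSpace G] [BorelSpace G] (μ : Measure G)
  [IsProbabilityMeasure μ] [μ.IsMulLeftInvariant] [μ.IsMulRightInvariant] [μ.IsInvInvariant]
  {N n : ℕ} {L : LD G N n}

variable (L) in
/-- the linear combinations of the normalised observables of the blocks -/
def Oa {e m : ℕ} [NeZero m] (β : ℝ) (r q : ℕ) {ι : Type*} [Fintype ι]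
    (z : ι → Fin (e + 3) → ℕ) (a : ι → ℝ) (U : Ed (e + 3) (2 * m) → G) : ℝ :=
  ∑ i, a i * (nc e q β * Oz L r q (z i) U)

section

variable {e m : ℕ} [NeZero m] {q r : ℕ} {β : ℝ} {ι : Type*} [Fintype ι]
  {z : ι → Fin (e + 3) → ℕ}

lemma Oa_cont (a : ι → ℝ) : Continuous fun U : Ed (e + 3) (2 * m) → G =>
    Oa L β r q z a U :=
  continuous_finsetSum _ fun i _ => continuous_const.mul (continuous_const.mul (Oz_cont (z i)))

lemma Oa_eq (a : ι → ℝ) (U : Ed (e + 3) (2 * m) → G) :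
    Oa L β r q z a U = nc e q β * ∑ i, a i * Oz L r q (z i) U := by
  unfold Oa
  rw [Finset.mul_sum]
  exact Finset.sum_congr rfl fun i _ => by ring

lemma Oz_GI (hqr : q = 2 ^ r) (w : Fin (e + 3) → ℕ) :
    GI fun U : Ed (e + 3) (2 * m) → G => Oz L r q w U :=
  GI_tr (Fq_GI (L := L) (q := q) (e := e) (m := m) hqr) (bp m q w)

lemma Oz_Sp (hqr : q = 2 ^ r) {w : Fin (e + 3) → ℕ} (hw : w (Fin.last (e + 2)) = 0) :
    Sp (Fin.last (e + 2)) fun U : Ed (e + 3) (2 * m) → G => Oz L r q w U := by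
  intro U U' h
  refine Fq_Sp (L := L) (q := q) (e := e) (m := m) hqr _ _ fun x i hx hi => ?_
  refine h _ _ ?_ hi
  have h1 : bp m q w (Fin.last (e + 2)) = 0 := by
    unfold bp
    rw [hw]
    simp
  show x (Fin.last (e + 2)) + bp m q w (Fin.last (e + 2)) = 0
  rw [hx, h1, add_zero]

lemma Oa_GI (hqr : q = 2 ^ r) (a : ι → ℝ) :
    GI fun U : Ed (e + 3) (2 * m) → G => Oa L β r q z a U := fun γ U => by
  show Oa L β r q z a (gt γ U) = Oa L β r q z a U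
  unfold Oa
  refine Finset.sum_congr rfl fun i _ => ?_
  have h1 : Oz L r q (z i) (gt γ U) = Oz L r q (z i) U := Oz_GI hqr (z i) γ U
  rw [h1]

lemma Oa_Sp (hqr : q = 2 ^ r) (hl : ∀ i, z i (Fin.last (e + 2)) = 0) (a : ι → ℝ) :
    Sp (Fin.last (e + 2)) fun U : Ed (e + 3) (2 * m) → G => Oa L β r q z a U := fun U U' h => by
  show Oa L β r q z a U = Oa L β r q z a U'
  unfold Oa
  refine Finset.sum_congr rfl fun i _ => ?_
  have h1 : Oz L r q (z i) U = Oz L r q (z i) U' := Oz_Sp hqr (hl i) U U' h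
  rw [h1]

/-- the variance -/
lemma var_Oa [DecidableEq ι] (hq : 1 ≤ q) (hβ : 0 < β) (hqr : q = 2 ^ r) {cv : ℝ}
    (hv : ∀ c : (Ed (e + 3) (2 * m) → G) → ℝ, Continuous c →
      (∀ (a : Fin n) (s : ℝ) (U : Ed (e + 3) (2 * m) → G), c (Ps L q a s U) = c U) →
      cv * ((q : ℝ) ^ 2 / (β * (q : ℝ) ^ (e + 1))) ≤
        EX μ L β (fun U : Ed (e + 3) (2 * m) → G => (‖psi L r q U‖ - c U) ^ 2))
    {K : ℕ} (hK : 8 * q * K ≤ 2 * m) (hz : ∀ i k, z i k < K)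
    (hl : ∀ i, z i (Fin.last (e + 2)) = 0) (hinj : Function.Injective z) (a : ι → ℝ) (c : ℝ) :
    cv * (∑ i, a i ^ 2) * Zt μ L β (fun _ : Ed (e + 3) (2 * m) → G => 1) ≤
      Zt μ L β (fun U : Ed (e + 3) (2 * m) → G => (Oa L β r q z a U - c) ^ 2) := by
  have ha := nc_pos (e := e) hq hβ
  have ha2 := nc_sq (e := e) hq hβ
  obtain ⟨b, hb⟩ : ∃ b, b = nc e q β := ⟨_, rfl⟩
  rw [← hb] at ha ha2
  have k1 := low_sum μ (L := L) hq hqr hv hK hz hl hinj a (c / b)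
  have k3 : EX μ L β (fun U : Ed (e + 3) (2 * m) → G => (Oa L β r q z a U - c) ^ 2) =
      b ^ 2 * EX μ L β (fun U : Ed (e + 3) (2 * m) → G =>
        (∑ i, a i * Oz L r q (z i) U - c / b) ^ 2) := by
    rw [← EX_smul]
    refine congrArg (EX μ L β) (funext fun U => ?_)
    rw [Oa_eq, ← hb, ← mul_pow, mul_sub, mul_div_cancel₀ c ha.ne']
  have k4 : cv * (∑ i, a i ^ 2) ≤
      EX μ L β (fun U : Ed (e + 3) (2 * m) → G => (Oa L β r q z a U - c) ^ 2) := by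
    rw [k3]
    calc cv * (∑ i, a i ^ 2) = b ^ 2 * (cv * ((q : ℝ) ^ 2 / (β * (q : ℝ) ^ (e + 1))) *
          ∑ i, a i ^ 2) := by
          rw [show b ^ 2 * (cv * ((q : ℝ) ^ 2 / (β * (q : ℝ) ^ (e + 1))) * ∑ i, a i ^ 2) =
            (b ^ 2 * ((q : ℝ) ^ 2 / (β * (q : ℝ) ^ (e + 1)))) * (cv * ∑ i, a i ^ 2) by ring,
            ha2, one_mul]
      _ ≤ _ := mul_le_mul_of_nonneg_left k1 (sq_nonneg b)
  unfold EX at k4
  rwa [le_div_iff₀ (Zt_pos μ β)] at k4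

/-- the variation -/
lemma dif_Oa (hq : 1 ≤ q) (hβ : 0 < β) {C3 S : ℝ} (a : ι → ℝ)
    (hM : ∑ i, ∑ j, a i * a j * MD μ L β r q z m i j ≤
      C3 * (q / (β * (q : ℝ) ^ (e + 1))) * S) :
    Zt μ L β (fun U : Ed (e + 3) (2 * m) → G =>
      (Oa L β r q z a (tr (eT (Fin.last (e + 2))) U) - Oa L β r q z a U) ^ 2) ≤
      C3 * S / q * Zt μ L β (fun _ : Ed (e + 3) (2 * m) → G => 1) := by
  have ha3 := nc_sq' (e := e) hq hβ
  obtain ⟨b, hb⟩ : ∃ b, b = nc e q β := ⟨_, rfl⟩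
  rw [← hb] at ha3
  rw [MD_sum] at hM
  have k3 : EX μ L β (fun U : Ed (e + 3) (2 * m) → G =>
      (Oa L β r q z a (tr (eT (Fin.last (e + 2))) U) - Oa L β r q z a U) ^ 2) =
      b ^ 2 * EX μ L β (fun U : Ed (e + 3) (2 * m) → G =>
        (∑ i, a i * Oz L r q (z i) (tr (eT (Fin.last (e + 2))) U) -
        ∑ i, a i * Oz L r q (z i) U) ^ 2) := by
    rw [← EX_smul]
    refine congrArg (EX μ L β) (funext fun U => ?_)
    rw [Oa_eq, Oa_eq, ← hb]
    ring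
  have k4 : EX μ L β (fun U : Ed (e + 3) (2 * m) → G =>
      (Oa L β r q z a (tr (eT (Fin.last (e + 2))) U) - Oa L β r q z a U) ^ 2) ≤ C3 * S / q := by
    rw [k3]
    calc _ ≤ b ^ 2 * (C3 * (q / (β * (q : ℝ) ^ (e + 1))) * S) :=
          mul_le_mul_of_nonneg_left hM (sq_nonneg b)
      _ = (b ^ 2 * (q / (β * (q : ℝ) ^ (e + 1)))) * (C3 * S) := by ring
      _ = C3 * S / q := by rw [ha3]; ring
  unfold EX at k4
  rwa [div_le_iff₀ (Zt_pos μ β)] at k4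

end

/-- **truncated correlations of the sums** -/
theorem core (hn : 1 ≤ n) (hN : 1 ≤ N) (e : ℕ) {C0 : ℝ} (hC0 : 0 < C0)
    (hcar : ∀ g : G, dv L g ^ 2 ≤ ∑ a, fi L a g ^ 2 + C0 * dv L g ^ 4) :
    ∃ c2 C4 cv : ℝ, 0 < c2 ∧ 0 < C4 ∧ 0 < cv ∧
    ∀ j q : ℕ, q = 2 ^ (j + 1) → C4 ≤ q → ∀ β : ℝ, 0 < β →
      c2 * ((q : ℝ) ^ kap e * ((j : ℝ) + 5) ^ nul e) ≤ β → ∃ τ : ℝ, 0 < τ ∧
      ∀ (m : ℕ) [NeZero m],
      5 * (e + 3) * q < 2 * m → 32 * q ≤ 2 * m → ∀ K0 : ℕ, 8 * q * K0 ≤ 2 * m →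
      ∀ (K : ℕ) (z : Fin K → Fin (e + 3) → ℕ), (∀ i k, z i k < K0) →
      (∀ i, z i (Fin.last (e + 2)) = 0) → Function.Injective z →
      (∀ i, MD μ L β (j + 1) q z m i i ≤ τ) ∧ ∀ a : Fin K → ℝ, 0 < ∑ i, a i ^ 2 →
      ∑ i, ∑ k, a i * a k * MD μ L β (j + 1) q z m i k ≤ 3 * τ * ∑ i, a i ^ 2 →
      cv * ∑ i, a i ^ 2 ≤ Zt μ L β (fun U : Ed (e + 3) (2 * m) → G =>
          Oa L β (j + 1) q z a U * Oa L β (j + 1) q z a U) /
          Zt μ L β (fun _ : Ed (e + 3) (2 * m) → G => 1) -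
        (Zt μ L β (fun U : Ed (e + 3) (2 * m) → G => Oa L β (j + 1) q z a U) /
          Zt μ L β (fun _ : Ed (e + 3) (2 * m) → G => 1)) ^ 2 ∧
      ∀ k : ℕ, 1 ≤ k → k ≤ m →
      Real.exp (-(C4 / q * k)) *
        (Zt μ L β (fun U : Ed (e + 3) (2 * m) → G => Oa L β (j + 1) q z a U *
          Oa L β (j + 1) q z a U) / Zt μ L β (fun _ : Ed (e + 3) (2 * m) → G => 1) -
        (Zt μ L β (fun U : Ed (e + 3) (2 * m) → G => Oa L β (j + 1) q z a U) /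
          Zt μ L β (fun _ : Ed (e + 3) (2 * m) → G => 1)) ^ 2) ≤
        Zt μ L β (fun U : Ed (e + 3) (2 * m) → G => Oa L β (j + 1) q z a U *
          Oa L β (j + 1) q z a
            (tr (sv (Fin.last (e + 2)) ((2 * k - 1 : ℕ) : ZMod (2 * m))) U)) /
          Zt μ L β (fun _ : Ed (e + 3) (2 * m) → G => 1) -
        (Zt μ L β (fun U : Ed (e + 3) (2 * m) → G => Oa L β (j + 1) q z a U) /
          Zt μ L β (fun _ : Ed (e + 3) (2 * m) → G => 1)) ^ 2 := by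
  have hN1 : (1 : ℝ) ≤ N := by exact_mod_cast hN
  obtain ⟨A, hA⟩ : ∃ A : ℝ, A = (30000 * N) ^ 2 := ⟨_, rfl⟩
  have hA1 : 1 ≤ A := by rw [hA]; nlinarith
  obtain ⟨c1, cv, hc1, hc11, hcv, hvar⟩ := var_lowf μ (L := L) hn hN e hC0 hcar hA1
  have hCD := CD_pos (e := e) hA1 hN
  refine ⟨1 / c1 + 20 * N * (e + 3), 9 * (3 * CD e N A) / cv, cv, by positivity, by positivity,
    hcv, fun j q hqr hq' β hβ0 hqβ => ?_⟩
  have hq : 1 ≤ q := by rw [hqr]; exact Nat.one_le_two_pow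
  have hq1 : (1 : ℝ) ≤ q := by exact_mod_cast hq
  have hq0 : (0 : ℝ) < q := by linarith
  refine ⟨CD e N A * (q / (β * (q : ℝ) ^ (e + 1))), by positivity,
    fun m _ hm hm32 K0 hK0 K z hz hl hinj => ?_⟩
  have hm5 : 5 * q < 2 * m := by nlinarith
  have hm2 : 2 ≤ m := by omega
  have hj0 : (0 : ℝ) ≤ j := Nat.cast_nonneg j
  have he0 : (0 : ℝ) ≤ e := Nat.cast_nonneg e
  obtain ⟨lam, hlam⟩ : ∃ lam : ℝ, lam = lm e (j + 1) := ⟨_, rfl⟩
  have hlam1 : 1 ≤ lam := by rw [hlam]; exact lm_ge _ _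
  obtain ⟨a0, ha0⟩ : ∃ a0 : ℝ, a0 = 30000 * N * Real.sqrt lam / Real.sqrt β := ⟨_, rfl⟩
  have ha00 : 0 ≤ a0 := by rw [ha0]; positivity
  have haA : a0 ^ 2 ≤ A * lam / β := by
    rw [ha0, div_pow, mul_pow, Real.sq_sqrt (by linarith), Real.sq_sqrt hβ0.le, hA]
  have hS : SB μ L (e + 3) m β (fun k => a0 * Real.sqrt (2 ^ k)) (j + 1 + 3) := by
    rw [ha0, hlam]
    exact SB_all μ hN hβ0 (by rw [← hqr]; exact hm32)
  obtain ⟨Q, hQ⟩ : ∃ Q : ℝ, Q = (q : ℝ) ^ kap e * ((j : ℝ) + 5) ^ nul e := ⟨_, rfl⟩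
  rw [← hQ] at hqβ
  -- the powers
  have hk2 : (q : ℝ) ^ 2 ≤ (q : ℝ) ^ kap e := pow_le_pow_right₀ hq1 (le_max_left _ _)
  have hke : (q : ℝ) ^ (e + 1) ≤ (q : ℝ) ^ kap e := pow_le_pow_right₀ hq1 (le_max_right _ _)
  have hkq : (q : ℝ) ≤ (q : ℝ) ^ kap e := by
    calc (q : ℝ) = q ^ 1 := (pow_one _).symm
      _ ≤ q ^ kap e := pow_le_pow_right₀ hq1 (by unfold kap; omega)
  have hQ0 : 0 < Q := by rw [hQ]; positivity
  have l1 : ((j : ℝ) + 5) * lam ≤ ((j : ℝ) + 5) ^ nul e := by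
    rw [hlam]
    unfold lm nul
    split_ifs with h
    · push_cast
      nlinarith
    · rw [pow_one, mul_one]
  have l2 : lam ^ 2 ≤ ((j : ℝ) + 5) ^ nul e := by
    rw [hlam]
    unfold lm nul
    split_ifs with h
    · push_cast
      nlinarith
    · rw [pow_one, one_pow]
      linarith
  have l0 : 1 ≤ ((j : ℝ) + 5) ^ nul e := one_le_pow₀ (by linarith)
  have b1 : (q : ℝ) ^ 2 * ((j + 1 + 3 : ℕ) * lam) ≤ Q := by
    rw [hQ]
    refine mul_le_mul hk2 (le_trans ?_ l1) (by positivity) (by positivity)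
    refine mul_le_mul_of_nonneg_right ?_ (by linarith)
    push_cast
    linarith
  have b2 : (q : ℝ) ^ (e + 1) * lam ^ 2 ≤ Q := by
    rw [hQ]
    exact mul_le_mul hke l2 (by positivity) (by positivity)
  have b3 : (q : ℝ) ^ (e + 1) * ((j + 2 : ℕ) * lam) ≤ Q := by
    rw [hQ]
    refine mul_le_mul hke (le_trans ?_ l1) (by positivity) (by positivity)
    refine mul_le_mul_of_nonneg_right ?_ (by linarith)
    push_cast
    linarith
  have b4 : (q : ℝ) ≤ Q := by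
    rw [hQ]
    calc (q : ℝ) = q * 1 := (mul_one _).symm
      _ ≤ _ := mul_le_mul hkq l0 (by norm_num) (by positivity)
  have hc1Q : Q ≤ c1 * β := by
    have h1 : 1 / c1 * Q ≤ β := by
      refine le_trans (mul_le_mul_of_nonneg_right ?_ hQ0.le) hqβ
      have : (0 : ℝ) ≤ 20 * N * (e + 3) := by positivity
      linarith
    have h2 := mul_le_mul_of_nonneg_left h1 hc1.le
    rw [← mul_assoc, mul_one_div_cancel hc1.ne', one_mul] at h2
    exact h2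
  have hQβ : Q ≤ β := by
    refine hc1Q.trans ?_
    calc c1 * β ≤ 1 * β := mul_le_mul_of_nonneg_right hc11 hβ0.le
      _ = β := one_mul _
  have hNQ : 20 * N * (e + 3) * q ≤ β := by
    refine le_trans ?_ hqβ
    refine mul_le_mul ?_ b4 (by positivity) (by positivity)
    have : 0 < 1 / c1 := by positivity
    linarith
  have hv := hvar (j + 1) q β lam a0 hqr hβ0 hlam1 ha00 haA (b1.trans hc1Q) (b2.trans hc1Q) m hm5
    hS
  have hD := dif_bound μ (L := L) (n := n) (e := e) hm2 hN hβ0 hqr hm hA1 hlam1 haA hS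
    (b3.trans hQβ) hNQ
  refine ⟨fun i => by rw [MD_diag]; exact hD, fun a hS0 hM => ?_⟩
  obtain ⟨S, hSd⟩ : ∃ S, S = ∑ i, a i ^ 2 := ⟨_, rfl⟩
  have hvO := fun c => var_Oa μ (L := L) (a := a) hq hβ0 hqr hv hK0 hz hl hinj c
  rw [← hSd] at hS0 hM ⊢
  simp only [← hSd] at hvO
  have hdO := dif_Oa μ (L := L) (z := z) (m := m) (e := e) (r := j + 1) (C3 := 3 * CD e N A)
    (S := S) hq hβ0 a (by
      refine hM.trans (le_of_eq ?_)
      ring)
  have hC4 : 9 * (3 * CD e N A) / cv = 9 * (3 * CD e N A * S) / (cv * S) := by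
    rw [← mul_assoc 9 (3 * CD e N A) S, mul_div_mul_right _ _ hS0.ne']
  rw [hC4] at hq' ⊢
  exact trunc_gen μ (L := L) (τ := Fin.last (e + 2)) hm2 hβ0.le
    (O := fun U : Ed (e + 3) (2 * m) → G => Oa L β (j + 1) q z a U)
    (Oa_cont a) (Oa_GI hqr a) (Oa_Sp hqr hl a) (by positivity) (by positivity) hq0 hq' hvO hdO

end

end Pool.Agent.MG990.H31YM
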