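import Mathlib
import Pool.Agent.Y14.Defs
import Pool.Agent.Y14.Main

/-!
# Local observables: translations and linear combinations
-/

open MeasureTheory Matrix Filter
open scoped Matrix.Norms.Frobenius Topology
open Pool.Agent.Y14.Wilson

namespace Pool.Agent.H31YM.Wilson

set_option linter.unusedSectionVars false
set_option linter.unusedVariables false

noncomputable section

variable {N n d l D K : ℕ} {G : Subgroup (UU N)}

/-- The configuration translated by `x`. -/
def shiftBy (x : Fin d → ℤ) (V : LinkZ d → G) : LinkZ d → G := fun e => V (e.1 + x, e.2)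

lemma loc_mono {R R' : ℕ} {F : (LinkZ d → G) → ℝ} (hF : IsLocal R F) (h : R ≤ R') :
    IsLocal R' F where
  cont := hF.cont
  inv := hF.inv
  loc V V' h' := hF.loc V V' fun e he => h' e fun i => ⟨(he i).1, by
    have := (he i).2
    have h1 : (R : ℤ) ≤ R' := by exact_mod_cast h
    linarith⟩

lemma loc_sub {R : ℕ} {F F' : (LinkZ d → G) → ℝ} (hF : IsLocal R F) (hF' : IsLocal R F') :
    IsLocal R fun V => F V - F' V where
  cont := hF.cont.sub hF'.cont
  inv γ V := by rw [hF.inv, hF'.inv]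
  loc V V' h' := by rw [hF.loc V V' h', hF'.loc V V' h']

lemma loc_mul {R : ℕ} {F F' : (LinkZ d → G) → ℝ} (hF : IsLocal R F) (hF' : IsLocal R F') :
    IsLocal R fun V => F V * F' V where
  cont := hF.cont.mul hF'.cont
  inv γ V := by rw [hF.inv, hF'.inv]
  loc V V' h' := by rw [hF.loc V V' h', hF'.loc V V' h']

lemma loc_translate {R R' : ℕ} {F : (LinkZ d → G) → ℝ} (hF : IsLocal R F) {x : Fin d → ℤ}
    (hx : ∀ k, 0 ≤ x k) (hx' : ∀ k, x k + R ≤ R') : IsLocal R' fun V => F (shiftBy x V) where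
  cont := hF.cont.comp (continuous_pi fun e => continuous_apply _)
  inv γ V := by
    have h1 : shiftBy x (Y14.Wilson.gauge γ V) =
        Y14.Wilson.gauge (fun y => γ (y + x)) (shiftBy x V) := by
      funext e
      unfold shiftBy Y14.Wilson.gauge
      simp only
      rw [add_right_comm]
    rw [h1, hF.inv]
  loc V V' h := by
    refine hF.loc _ _ fun e he => ?_
    unfold shiftBy
    refine h _ fun i => ?_
    have h1 := he i
    have h2 := hx i
    have h3 := hx' i
    simp only [Pi.add_apply]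
    constructor <;> linarith [h1.1, h1.2]

lemma time_translate {F : (LinkZ (D + 1) → G) → ℝ} (hF : AtTimeZero F) {x : Fin (D + 1) → ℤ}
    (hx : x (Fin.last D) = 0) : AtTimeZero fun V => F (shiftBy x V) := by
  intro V V' h
  refine hF _ _ fun e he he' => ?_
  unfold shiftBy
  refine h _ ?_ he'
  simp only [Pi.add_apply]
  rw [he, hx, add_zero]

/-- the linear combinations of the translates -/
def comb (F : (LinkZ d → G) → ℝ) (x : Fin K → Fin d → ℤ) (a : Fin K → ℝ)
    (V : LinkZ d → G) : ℝ := ∑ i, a i * F (shiftBy (x i) V)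

lemma loc_comb {R : ℕ} {F : (LinkZ d → G) → ℝ} {x : Fin K → Fin d → ℤ}
    (h : ∀ i, IsLocal R fun V => F (shiftBy (x i) V)) (a : Fin K → ℝ) :
    IsLocal R (comb F x a) where
  cont := continuous_finsetSum _ fun i _ => continuous_const.mul (h i).cont
  inv γ V := by
    unfold comb
    exact Finset.sum_congr rfl fun i _ => by rw [(h i).inv γ V]
  loc V V' h' := by
    unfold comb
    exact Finset.sum_congr rfl fun i _ => by rw [(h i).loc V V' h']

lemma time_comb {F : (LinkZ (D + 1) → G) → ℝ} (hF : AtTimeZero F)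
    {x : Fin K → Fin (D + 1) → ℤ} (hx : ∀ i, x i (Fin.last D) = 0) (a : Fin K → ℝ) :
    AtTimeZero (comb F x a) := by
  intro V V' h
  unfold comb
  refine Finset.sum_congr rfl fun i _ => ?_
  have h1 : F (shiftBy (x i) V) = F (shiftBy (x i) V') := time_translate hF (hx i) V V' h
  rw [h1]

/-- the linear map -/
def combL (F : (LinkZ d → G) → ℝ) (x : Fin K → Fin d → ℤ) :
    (Fin K → ℝ) →ₗ[ℝ] ((LinkZ d → G) → ℝ) where
  toFun := comb F x
  map_add' a b := by
    funext V
    unfold comb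
    rw [Pi.add_apply, ← Finset.sum_add_distrib]
    exact Finset.sum_congr rfl fun i _ => by rw [Pi.add_apply]; ring
  map_smul' c a := by
    funext V
    unfold comb
    rw [Pi.smul_apply, smul_eq_mul, Finset.mul_sum]
    exact Finset.sum_congr rfl fun i _ => by rw [Pi.smul_apply, smul_eq_mul, RingHom.id_apply]; ring

lemma combL_apply (F : (LinkZ d → G) → ℝ) (x : Fin K → Fin d → ℤ) (a : Fin K → ℝ) :
    combL F x a = comb F x a := rfl

lemma comb_single (F : (LinkZ d → G) → ℝ) (x : Fin K → Fin d → ℤ) (a : Fin K → ℝ) :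
    comb F x a = ∑ i, a i • (fun V => F (shiftBy (x i) V)) := by
  funext V
  unfold comb
  rw [Finset.sum_apply]
  rfl

/-- the space of observables given by a subspace of the coefficients -/
def Wsp (F : (LinkZ d → G) → ℝ) (x : Fin K → Fin d → ℤ) (V : Submodule ℝ (Fin K → ℝ)) :
    Submodule ℝ ((LinkZ d → G) → ℝ) := LinearMap.range ((combL F x).comp V.subtype)

lemma mem_Wsp {F : (LinkZ d → G) → ℝ} {x : Fin K → Fin d → ℤ} {V : Submodule ℝ (Fin K → ℝ)}
    {O : (LinkZ d → G) → ℝ} (h : O ∈ Wsp F x V) : ∃ a ∈ V, O = comb F x a := by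
  obtain ⟨a, ha⟩ := LinearMap.mem_range.1 h
  exact ⟨a.1, a.2, ha.symm⟩

lemma Wsp_le {F : (LinkZ (D + 1) → G) → ℝ} {x : Fin K → Fin (D + 1) → ℤ}
    (hx : ∀ i, x i (Fin.last D) = 0) (V : Submodule ℝ (Fin K → ℝ)) :
    Wsp F x V ≤ Submodule.span ℝ {O | ∃ y : Fin (D + 1) → ℤ, y (Fin.last D) = 0 ∧
      O = fun V => F (shiftBy y V)} := by
  intro O hO
  obtain ⟨a, -, rfl⟩ := mem_Wsp hO
  rw [comb_single]
  exact Submodule.sum_mem _ fun i _ => Submodule.smul_mem _ _
    (Submodule.subset_span ⟨x i, hx i, rfl⟩)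

lemma Wsp_rank {F : (LinkZ d → G) → ℝ} {x : Fin K → Fin d → ℤ} {V : Submodule ℝ (Fin K → ℝ)}
    (h : ∀ a ∈ V, comb F x a = 0 → a = 0) :
    Module.finrank ℝ (Wsp F x V) = Module.finrank ℝ V := by
  unfold Wsp
  refine LinearMap.finrank_range_of_inj ?_
  rw [← LinearMap.ker_eq_bot, LinearMap.ker_eq_bot']
  intro a ha
  exact Subtype.ext (h a.1 a.2 ha)

variable [MeasurableSpace G] (μ : Measure G) {β : ℝ}

lemma corr_zero [NeZero l] (t : ℕ) :
    corr l μ β (fun _ : LinkZ (D + 1) → G => (0 : ℝ)) t = 0 := by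
  unfold corr expect
  simp

lemma corrZ_zero (ν : Measure (LinkZ (D + 1) → G)) (t : ℕ) :
    corrZ ν (fun _ : LinkZ (D + 1) → G => (0 : ℝ)) t = 0 := by
  unfold corrZ
  simp

/-- the matrix of the variations -/
def DD (l : ℕ) [NeZero l] (β : ℝ) (F : (LinkZ (D + 1) → G) → ℝ)
    (x : Fin K → Fin (D + 1) → ℤ) : Matrix (Fin K) (Fin K) ℝ := fun i k =>
  expect l μ β (fun V => (F (shiftBy (x i) (shift 1 V)) - F (shiftBy (x i) V)) *
    (F (shiftBy (x k) (shift 1 V)) - F (shiftBy (x k) V)))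

/-- the matrix of the variations in the infinite volume -/
def DZ (ν : Measure (LinkZ (D + 1) → G)) (F : (LinkZ (D + 1) → G) → ℝ)
    (x : Fin K → Fin (D + 1) → ℤ) : Matrix (Fin K) (Fin K) ℝ := fun i k =>
  ∫ V, (F (shiftBy (x i) (shift 1 V)) - F (shiftBy (x i) V)) *
    (F (shiftBy (x k) (shift 1 V)) - F (shiftBy (x k) V)) ∂ν

lemma DD_symm [NeZero l] (F : (LinkZ (D + 1) → G) → ℝ) (x : Fin K → Fin (D + 1) → ℤ)
    (i k : Fin K) : DD μ l β F x i k = DD μ l β F x k i := by
  unfold DD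
  exact congrArg (expect l μ β) (funext fun V => mul_comm _ _)

lemma DZ_symm (ν : Measure (LinkZ (D + 1) → G)) (F : (LinkZ (D + 1) → G) → ℝ)
    (x : Fin K → Fin (D + 1) → ℤ) (i k : Fin K) : DZ ν F x i k = DZ ν F x k i := by
  unfold DZ
  refine integral_congr_ae (Filter.Eventually.of_forall fun V => ?_)
  exact mul_comm _ _

lemma DD_local [CompactSpace G] [SecondCountableTopology G] [BorelSpace G] {R : ℕ} {F : (LinkZ (D + 1) → G) → ℝ}
    {x : Fin K → Fin (D + 1) → ℤ} (h : ∀ i, IsLocal R fun V => F (shiftBy (x i) V))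
    (i k : Fin K) : IsLocal (R + 1) fun V : LinkZ (D + 1) → G =>
      (F (shiftBy (x i) (shift 1 V)) - F (shiftBy (x i) V)) *
        (F (shiftBy (x k) (shift 1 V)) - F (shiftBy (x k) V)) := by
  have h1 : ∀ j, IsLocal (R + 1) fun V => F (shiftBy (x j) (shift 1 V)) - F (shiftBy (x j) V) :=
    fun j => loc_sub (local_shift (h j) 1) (loc_mono (h j) (by omega))
  exact loc_mul (h1 i) (h1 k)

end

end Pool.Agent.H31YM.Wilson
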