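import Mathlib
import Pool.Agent.R990.MG.Main

/-!
# The choice of the scale
-/

namespace Pool.Agent.MG990.H31YM

/-- the choice of the scale for a given energy -/
lemma scale3 {c2 C4 : ℝ} (hc2 : 0 < c2) (hC4 : 0 < C4) {κ ν : ℕ} (hκ : 1 ≤ κ) :
    ∃ β₀ C6 : ℝ, 3 ≤ β₀ ∧ 0 < C6 ∧ ∀ β : ℝ, β₀ ≤ β → ∀ x : ℝ, 0 < x →
      x ^ κ = Real.log β ^ ν / β → ∀ E : ℝ, x ≤ E → E ≤ 1 → ∃ j : ℕ, C4 ≤ (2 : ℝ) ^ (j + 1) ∧
      c2 * (((2 : ℝ) ^ (j + 1)) ^ κ * ((j : ℝ) + 5) ^ ν) ≤ β ∧ (2 : ℝ) ^ (j + 1) * E ≤ C6 ∧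
      C4 / 2 ^ (j + 1) ≤ C6 * E := by
  classical
  obtain ⟨β₀, C5, hβ₀, hC5, h⟩ := scale2 hc2 hC4 (κ := κ) (ν := ν) hκ
  refine ⟨β₀, 2 + 2 * C4 + C5, hβ₀, by positivity, fun β hβ x hx hxκ E hxE hE1 => ?_⟩
  have hE : 0 < E := lt_of_lt_of_le hx hxE
  obtain ⟨js, h1, h2, h3, h4⟩ := h β hβ x hx hxκ
  have hC4E : C4 * E ≤ C4 := by nlinarith
  have hex : ∃ k : ℕ, C4 ≤ (2 : ℝ) ^ (k + 1) ∧ 1 / E ≤ (2 : ℝ) ^ (k + 1) := by
    obtain ⟨k, hk⟩ := pow_unbounded_of_one_lt (max C4 (1 / E)) (show (1 : ℝ) < 2 by norm_num)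
    have h5 : (2 : ℝ) ^ k ≤ 2 ^ (k + 1) := pow_le_pow_right₀ (by norm_num) (by omega)
    exact ⟨k, (le_max_left _ _).trans (hk.le.trans h5), (le_max_right _ _).trans (hk.le.trans h5)⟩
  obtain ⟨k, hk⟩ : ∃ k, k = Nat.find hex := ⟨_, rfl⟩
  have hk1 : C4 ≤ (2 : ℝ) ^ (k + 1) ∧ 1 / E ≤ (2 : ℝ) ^ (k + 1) := by
    rw [hk]; exact Nat.find_spec hex
  have hk2 : ∀ i < k, ¬(C4 ≤ (2 : ℝ) ^ (i + 1) ∧ 1 / E ≤ (2 : ℝ) ^ (i + 1)) := fun i hi => by
    rw [hk] at hi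
    exact Nat.find_min hex hi
  by_cases hkj : k ≤ js
  · refine ⟨k, hk1.1, ?_, ?_, ?_⟩
    · refine le_trans ?_ h2
      have e1 : (k : ℝ) ≤ js := by exact_mod_cast hkj
      have e0 : (0 : ℝ) ≤ k := Nat.cast_nonneg k
      have e2 : ((2 : ℝ) ^ (k + 1)) ^ κ ≤ ((2 : ℝ) ^ (js + 1)) ^ κ :=
        pow_le_pow_left₀ (by positivity) (pow_le_pow_right₀ (by norm_num) (by omega)) κ
      have e3 : ((k : ℝ) + 5) ^ ν ≤ ((js : ℝ) + 5) ^ ν :=
        pow_le_pow_left₀ (by positivity) (by linarith) ν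
      exact mul_le_mul_of_nonneg_left (mul_le_mul e2 e3 (by positivity) (by positivity)) hc2.le
    · rcases Nat.eq_zero_or_pos k with h0 | h0
      · rw [h0]
        have : (2 : ℝ) ^ (0 + 1) * E ≤ 2 := by
          rw [zero_add, pow_one]
          linarith
        linarith
      · have h5 := hk2 (k - 1) (by omega)
        rw [show k - 1 + 1 = k by omega] at h5
        rw [not_and_or, not_le, not_le] at h5
        have h6 : (2 : ℝ) ^ (k + 1) * E = 2 * (2 ^ k * E) := by rw [pow_succ]; ring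
        rw [h6]
        rcases h5 with h5 | h5
        · have h7 : (2 : ℝ) ^ k * E ≤ C4 * E := mul_le_mul_of_nonneg_right h5.le hE.le
          linarith
        · have h7 : (2 : ℝ) ^ k * E ≤ 1 := by
            rw [lt_div_iff₀ hE] at h5
            exact h5.le
          linarith
    · have h5 := hk1.2
      rw [div_le_iff₀ hE] at h5
      rw [div_le_iff₀ (by positivity)]
      have h6 : C4 * 1 ≤ C4 * (2 ^ (k + 1) * E) := mul_le_mul_of_nonneg_left h5 hC4.le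
      have h7 : 0 ≤ (2 + C4 + C5) * ((2 : ℝ) ^ (k + 1) * E) := by positivity
      calc C4 = C4 * 1 := (mul_one _).symm
        _ ≤ C4 * (2 ^ (k + 1) * E) + (2 + C4 + C5) * ((2 : ℝ) ^ (k + 1) * E) := by linarith
        _ = _ := by ring
  · push Not at hkj
    have h5 := hk2 js hkj
    rw [not_and_or, not_le, not_le] at h5
    have h6 : (2 : ℝ) ^ (js + 1) < 1 / E := by
      rcases h5 with h5 | h5
      · linarith
      · exact h5
    rw [lt_div_iff₀ hE] at h6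
    refine ⟨js, h1, h2, by linarith, h4.trans ?_⟩
    have h7 : C5 * x ≤ C5 * E := mul_le_mul_of_nonneg_left hxE hC5.le
    have h8 : 0 ≤ (2 + 2 * C4) * E := by positivity
    calc C5 * x ≤ C5 * E + (2 + 2 * C4) * E := by linarith
      _ = _ := by ring

end Pool.Agent.MG990.H31YM
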