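import Mathlib
import Pool.Agent.R990.MG.Main
import Pool.Agent.Helper31_YM.Core
import Pool.Agent.Helper31_YM.Loc
import Pool.Agent.Helper31_YM.Scale

/-!
# The low-lying observables in finite volume
-/

open MeasureTheory Matrix Filter
open scoped Matrix.Norms.Frobenius Topology

namespace Pool.Agent.MG990.Wilson.H31YM

set_option linter.unusedSectionVars false
set_option linter.unusedVariables false

noncomputable section

open Pool.Agent Pool.Agent.H906R3 Pool.Agent.W793 Pool.Agent.TH618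
open Pool.Agent.Y14.Wilson Pool.Agent.H31YM.Wilson

variable {N n d l D : ℕ} {G : Subgroup (UU N)}

/-- the positions of the blocks -/
def xz {e K : ℕ} (q : ℕ) (z : Fin K → Fin (e + 3) → ℕ) (i : Fin K) : Fin (e + 3) → ℤ :=
  fun k => ((8 * q * z i k : ℕ) : ℤ)

section bridge

variable [CompactSpace G] [SecondCountableTopology G] [MeasurableSpace G] [BorelSpace G]
  (μ : Measure G) [IsProbabilityMeasure μ] [μ.IsHaarMeasure] (B : LieBasis G n)

omit [CompactSpace G] [SecondCountableTopology G] [MeasurableSpace G] [BorelSpace G] in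
lemma translate_lf {d l : ℕ} (x : Fin d → ℤ) (U : YM.Ed d l → G) :
    (shiftBy x (YM.lf U : LinkZ d → G) : LinkZ d → G) =
      YM.lf (YM.tr (fun k => (x k : ZMod l)) U) := by
  funext f
  unfold shiftBy YM.lf YM.tr
  simp only
  congr 2
  funext i
  simp

lemma FZ_tr {e r q m K : ℕ} [NeZero m] (b : ℝ) (z : Fin K → Fin (e + 3) → ℕ) (i : Fin K)
    (U : YM.Ed (e + 2 + 1) (2 * m) → G) :
    FZ B e r q b (shiftBy (xz q z i) (YM.lf U)) =
      b * MG990.H31YM.Oz (ld B) r q (z i) U := by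
  rw [translate_lf, FZ_lf]
  unfold MG990.H31YM.Oz
  congr 3
  funext k
  unfold xz MG990.H31YM.bp
  push_cast
  rfl

lemma comb_lf {e r q m K : ℕ} [NeZero m] (β : ℝ) (z : Fin K → Fin (e + 3) → ℕ)
    (a : Fin K → ℝ) (U : YM.Ed (e + 2 + 1) (2 * m) → G) :
    comb (FZ B e r q (Y14.nc e q β)) (xz q z) a (YM.lf U) =
      MG990.H31YM.Oa (ld B) β r q z a U := by
  unfold comb MG990.H31YM.Oa
  refine Finset.sum_congr rfl fun i _ => ?_
  rw [FZ_tr]

lemma shift_lf {m : ℕ} [NeZero m] (t : ℕ) (U : YM.Ed (D + 1) (2 * m) → G) :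
    (shift t (YM.lf U : LinkZ (D + 1) → G) : LinkZ (D + 1) → G) =
      YM.lf (YM.tr (YM.sv (Fin.last D) (t : ZMod (2 * m))) U) :=
  YM.tz_lf (Fin.last D) t U

lemma DD_eq {e r q m K : ℕ} [NeZero m] (β b : ℝ) (z : Fin K → Fin (e + 3) → ℕ)
    (i k : Fin K) :
    DD μ (2 * m) β (FZ B e r q b) (xz q z) i k =
      b ^ 2 * MG990.H31YM.MD μ (ld B) β r q z m i k := by
  have := right_inv μ
  have := inv_inv' μ
  unfold DD MG990.H31YM.MD
  rw [expect_eq μ B, ← YM.EX_smul]
  have h1 : (YM.sv (Fin.last (e + 2)) ((1 : ℕ) : ZMod (2 * m)) : Fin (e + 3) → ZMod (2 * m)) =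
      YM.eT (Fin.last (e + 2)) := by
    unfold YM.sv YM.eT
    rw [Nat.cast_one]
  unfold YM.EX
  refine congrArg (fun f => YM.Zt μ (ld B) β f /
    YM.Zt μ (ld B) β (fun _ : YM.Ed (e + 3) (2 * m) → G => 1)) (funext fun U => ?_)
  rw [shift_lf, h1, FZ_tr, FZ_tr, FZ_tr, FZ_tr]
  ring

include B in
/-- the correlations of the combinations -/
lemma corr_comb {e r q m K : ℕ} [NeZero m] (β : ℝ) (z : Fin K → Fin (e + 3) → ℕ)
    (a : Fin K → ℝ) (t : ℕ) :
    corr (2 * m) μ β (comb (FZ B e r q (Y14.nc e q β)) (xz q z) a) t =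
      YM.Zt μ (ld B) β (fun U : YM.Ed (e + 3) (2 * m) → G =>
          MG990.H31YM.Oa (ld B) β r q z a U * MG990.H31YM.Oa (ld B) β r q z a
            (YM.tr (YM.sv (Fin.last (e + 2)) (t : ZMod (2 * m))) U)) /
          YM.Zt μ (ld B) β (fun _ : YM.Ed (e + 3) (2 * m) → G => 1) -
        (YM.Zt μ (ld B) β (fun U : YM.Ed (e + 3) (2 * m) → G =>
          MG990.H31YM.Oa (ld B) β r q z a U) /
          YM.Zt μ (ld B) β (fun _ : YM.Ed (e + 3) (2 * m) → G => 1)) ^ 2 := by
  have := right_inv μ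
  have := inv_inv' μ
  unfold corr
  rw [expect_eq μ B, expect_eq μ B, expect_eq μ B]
  simp only [shift_lf, comb_lf]
  rw [YM.Zt_tr μ β _ (fun U : YM.Ed (e + 3) (2 * m) → G =>
    MG990.H31YM.Oa (ld B) β r q z a U), pow_two]

include B in
theorem finite2 (hG : IsClosed (G : Set (UU N))) (hn : 1 ≤ n) (hN : 1 ≤ N) (e : ℕ) :
    ∃ C c β₀ : ℝ, 0 < C ∧ 0 < c ∧ 3 ≤ β₀ ∧
    ∀ β : ℝ, β₀ ≤ β → ∀ E : ℝ, rate (e + 2) β ≤ E → E ≤ 1 →
    ∃ (R : ℕ) (F : (LinkZ (e + 2 + 1) → G) → ℝ) (τ : ℝ), (R : ℝ) * E ≤ C ∧ IsLocal R F ∧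
      AtTimeZero F ∧ 0 < τ ∧ 0 < E ∧ ∀ l : ℕ, C ≤ l * E →
      ∃ (K : ℕ) (x : Fin K → Fin (e + 2 + 1) → ℤ),
        2 * (c * (l * E) ^ (e + 2)) ≤ K ∧ (∀ i, x i (Fin.last (e + 2)) = 0) ∧
        (∀ i, IsLocal l fun V => F (shiftBy (x i) V)) ∧
        ∀ (l' : ℕ) [NeZero l'], Even l' → l ≤ l' →
          (∀ i, DD μ l' β F x i i ≤ τ) ∧
          (∀ a : Fin K → ℝ, 0 ≤ ∑ i, ∑ k, a i * a k * DD μ l' β F x i k) ∧
          ∀ a : Fin K → ℝ, 0 < ∑ i, a i ^ 2 →
            ∑ i, ∑ k, a i * a k * DD μ l' β F x i k ≤ 3 * τ * ∑ i, a i ^ 2 →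
            c * ∑ i, a i ^ 2 ≤ corr l' μ β (comb F x a) 0 ∧ ∀ t : ℕ, Odd t → t < l' →
              Real.exp (-(C * E * t)) * corr l' μ β (comb F x a) 0 ≤
                corr l' μ β (comb F x a) t := by
  have := right_inv μ
  have := inv_inv' μ
  obtain ⟨C0, hC0, hcar⟩ := YM.cartan' (fm B) hG
  obtain ⟨c2, C4, cv, hc2, hC4, hcv, hcore⟩ := MG990.H31YM.core μ (L := ld B) hn hN e hC0 hcar
  obtain ⟨β₀, C6, hβ₀, hC6, hsc⟩ := MG990.H31YM.scale3 hc2 hC4 (κ := kap e) (ν := nul e)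
    (by unfold kap; omega)
  have hE0 : (0 : ℝ) ≤ e := Nat.cast_nonneg e
  obtain ⟨C, hC⟩ : ∃ C : ℝ, C = (5 * (e + 3) + 33) * C6 := ⟨_, rfl⟩
  have hCpos : 0 < C := by rw [hC]; positivity
  obtain ⟨c, hc⟩ : ∃ c : ℝ, c = min cv (1 / (2 * (16 * C6) ^ (e + 2))) := ⟨_, rfl⟩
  have hcpos : 0 < c := by rw [hc]; exact lt_min hcv (by positivity)
  have hccv : c ≤ cv := by rw [hc]; exact min_le_left _ _
  have hcc2 : c ≤ 1 / (2 * (16 * C6) ^ (e + 2)) := by rw [hc]; exact min_le_right _ _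
  refine ⟨C, c, β₀, hCpos, hcpos, hβ₀, fun β hβ E hxE hE1 => ?_⟩
  have hβ3 : 3 ≤ β := hβ₀.trans hβ
  have hβ0 : 0 < β := by linarith
  obtain ⟨hx, hxp⟩ := rate_pow (e := e) hβ3
  have hE : 0 < E := lt_of_lt_of_le hx hxE
  obtain ⟨j, hq2, hq3, hq4, hq5⟩ := hsc β hβ _ hx hxp E hxE hE1
  obtain ⟨q, hq⟩ : ∃ q : ℕ, q = 2 ^ (j + 1) := ⟨_, rfl⟩
  have hqR : ((2 : ℝ) ^ (j + 1)) = q := by rw [hq]; push_cast; ring
  rw [hqR] at hq2 hq3 hq4 hq5
  have hq1 : 1 ≤ q := by rw [hq]; exact Nat.one_le_two_pow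
  have hq1' : (1 : ℝ) ≤ q := by exact_mod_cast hq1
  have hq0 : (0 : ℝ) < q := by linarith
  obtain ⟨τ, hτ, hmain⟩ := hcore j q hq hq2 β hβ0 hq3
  obtain ⟨b, hb⟩ : ∃ b, b = Y14.nc e q β := ⟨_, rfl⟩
  have hb0 : 0 < b := by rw [hb]; exact Y14.nc_pos hq1 hβ0
  obtain ⟨F, hF⟩ : ∃ F : (LinkZ (e + 2 + 1) → G) → ℝ, F = FZ B e (j + 1) q b := ⟨_, rfl⟩
  have hFl : IsLocal (7 * q + 1) F := by rw [hF]; exact FZ_local B hq (by omega) b
  refine ⟨7 * q + 1, F, b ^ 2 * τ, ?_, hFl, by rw [hF]; exact FZ_time B hq b, by positivity, hE,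
    fun l hl => ?_⟩
  · push_cast
    calc (7 * (q : ℝ) + 1) * E ≤ (8 * q) * E := mul_le_mul_of_nonneg_right (by linarith) hE.le
      _ = 8 * (q * E) := by ring
      _ ≤ 8 * C6 := by linarith
      _ ≤ C := by
          rw [hC]
          exact mul_le_mul_of_nonneg_right (by linarith) hC6.le
  · have hlq : (5 * (e + 3) + 33) * q ≤ l := by
      have h1 : ((5 * (e + 3) + 33) * q : ℝ) * E ≤ l * E := by
        refine le_trans ?_ hl
        rw [hC]
        calc ((5 * (e + 3) + 33) * q : ℝ) * E = (5 * (e + 3) + 33) * (q * E) := by ring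
          _ ≤ _ := mul_le_mul_of_nonneg_left hq4 (by positivity)
      have h2 := le_of_mul_le_mul_right h1 hE
      exact_mod_cast h2
    obtain ⟨K0, hK0⟩ : ∃ K0, K0 = l / (8 * q) := ⟨_, rfl⟩
    have h8q : 0 < 8 * q := by omega
    have hK1 : 8 * q * K0 ≤ l := by rw [hK0]; exact Nat.mul_div_le _ _
    have hK2 : l < 8 * q * (K0 + 1) := by rw [hK0]; exact Nat.lt_mul_div_succ _ h8q
    have h8l : 8 * q ≤ l := by nlinarith
    have hK3 : 1 ≤ K0 := by rw [hK0]; exact Nat.div_pos h8l h8q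
    obtain ⟨σ⟩ : Nonempty (Fin (K0 ^ (e + 2)) ≃ (Fin (e + 2) → Fin K0)) :=
      ⟨(Fintype.equivFinOfCardEq (by simp)).symm⟩
    obtain ⟨z, hz⟩ : ∃ z : Fin (K0 ^ (e + 2)) → Fin (e + 3) → ℕ, ∀ i k, z i k =
      if h : (k : ℕ) < e + 2 then ((σ i ⟨k, h⟩ : Fin K0) : ℕ) else 0 := ⟨_, fun i k => rfl⟩
    have hzK : ∀ i k, z i k < K0 := fun i k => by
      rw [hz]
      split_ifs with h
      · exact (σ i ⟨k, h⟩).2
      · omega
    have hzl : ∀ i, z i (Fin.last (e + 2)) = 0 := fun i => by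
      rw [hz, dif_neg (by simp)]
    have hzi : Function.Injective z := fun i i' h => by
      refine σ.injective (funext fun k => Fin.ext ?_)
      have h1 := congrFun h (Fin.castSucc k)
      rw [hz, hz, dif_pos (by simp), dif_pos (by simp)] at h1
      exact h1
    refine ⟨K0 ^ (e + 2), xz q z, ?_, fun i => ?_, fun i => ?_, fun l' _ hl' hll => ?_⟩
    · have h1 : (l : ℝ) * E ≤ 16 * C6 * K0 := by
        have h2 : (l : ℝ) ≤ 16 * q * K0 := by
          have h3 : l ≤ 16 * q * K0 := by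
            calc l ≤ 8 * q * (K0 + 1) := hK2.le
              _ ≤ 8 * q * (K0 + K0) := Nat.mul_le_mul_left _ (by omega)
              _ = 16 * q * K0 := by ring
          exact_mod_cast h3
        have h4 : (0 : ℝ) ≤ K0 := Nat.cast_nonneg _
        calc (l : ℝ) * E ≤ (16 * q * K0) * E := mul_le_mul_of_nonneg_right h2 hE.le
          _ = 16 * K0 * (q * E) := by ring
          _ ≤ 16 * K0 * C6 := mul_le_mul_of_nonneg_left hq4 (by positivity)
          _ = _ := by ring
      have h5 : ((l : ℝ) * E) ^ (e + 2) ≤ (16 * C6) ^ (e + 2) * K0 ^ (e + 2) := by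
        rw [← mul_pow]
        exact pow_le_pow_left₀ (by positivity) h1 _
      have h6 : (0 : ℝ) < (16 * C6) ^ (e + 2) := by positivity
      push_cast
      calc 2 * (c * ((l : ℝ) * E) ^ (e + 2)) ≤
            2 * (1 / (2 * (16 * C6) ^ (e + 2)) * ((16 * C6) ^ (e + 2) * K0 ^ (e + 2))) := by
            refine mul_le_mul_of_nonneg_left ?_ (by norm_num)
            exact mul_le_mul hcc2 h5 (by positivity) (by positivity)
        _ = (K0 : ℝ) ^ (e + 2) := by field_simp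
    · unfold xz
      rw [hzl]
      simp
    · refine loc_translate hFl (fun k => ?_) fun k => ?_
      · unfold xz
        exact Int.natCast_nonneg _
      · unfold xz
        have h1 := hzK i k
        have h2 : 8 * q * z i k + (7 * q + 1) ≤ l := by
          calc 8 * q * z i k + (7 * q + 1) ≤ 8 * q * z i k + 8 * q := by omega
            _ = 8 * q * (z i k + 1) := by ring
            _ ≤ 8 * q * K0 := Nat.mul_le_mul_left _ h1
            _ ≤ l := hK1
        exact_mod_cast h2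
    · obtain ⟨m, rfl⟩ := even_iff_two_dvd.1 hl'
      haveI hm0 : NeZero m := ⟨by rintro rfl; nlinarith⟩
      have hm1 : 5 * (e + 3) * q < 2 * m := by nlinarith
      have hm2 : 32 * q ≤ 2 * m := by nlinarith
      obtain ⟨hd, hmn⟩ := hmain m hm1 hm2 K0 (hK1.trans hll) _ z hzK hzl hzi
      rw [hF]
      have hsum : ∀ a : Fin (K0 ^ (e + 2)) → ℝ,
          ∑ i, ∑ k, a i * a k * DD μ (2 * m) β (FZ B e (j + 1) q b) (xz q z) i k =
          b ^ 2 * ∑ i, ∑ k, a i * a k * MG990.H31YM.MD μ (ld B) β (j + 1) q z m i k := by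
        intro a
        rw [Finset.mul_sum]
        refine Finset.sum_congr rfl fun i _ => ?_
        rw [Finset.mul_sum]
        refine Finset.sum_congr rfl fun k _ => ?_
        rw [DD_eq]
        ring
      refine ⟨fun i => ?_, fun a => ?_, fun a ha hM => ?_⟩
      · rw [DD_eq]
        exact mul_le_mul_of_nonneg_left (hd i) (sq_nonneg b)
      · rw [hsum]
        refine mul_nonneg (sq_nonneg b) ?_
        rw [MG990.H31YM.MD_sum]
        exact YM.EX_nonneg μ fun U => sq_nonneg _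
      · rw [hsum] at hM
        have hM' : ∑ i, ∑ k, a i * a k * MG990.H31YM.MD μ (ld B) β (j + 1) q z m i k ≤
            3 * τ * ∑ i, a i ^ 2 := by
          refine le_of_mul_le_mul_left ?_ (show 0 < b ^ 2 by positivity)
          refine hM.trans (le_of_eq ?_)
          ring
        obtain ⟨k0, k1⟩ := hmn a ha hM'
        rw [hb]
        have hs0 : YM.sv (Fin.last (e + 2)) ((0 : ℕ) : ZMod (2 * m)) = 0 := by
          rw [Nat.cast_zero]
          exact Pi.single_zero _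
        have h0 := corr_comb μ B (r := j + 1) (q := q) (m := m) β z a 0
        rw [hs0] at h0
        simp only [YM.tr_zero] at h0
        rw [← h0] at k0 k1
        have k0' : c * ∑ i, a i ^ 2 ≤
            corr (2 * m) μ β (comb (FZ B e (j + 1) q (Y14.nc e q β)) (xz q z) a) 0 :=
          (mul_le_mul_of_nonneg_right hccv ha.le).trans k0
        refine ⟨k0', fun t ht htl => ?_⟩
        obtain ⟨k', hk'⟩ := ht
        obtain ⟨k, hk⟩ : ∃ k, k = k' + 1 := ⟨_, rfl⟩
        have hkt : t = 2 * k - 1 := by omega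
        have h4 := k1 k (by omega) (by omega)
        rw [← hkt, ← corr_comb μ B] at h4
        refine le_trans (mul_le_mul_of_nonneg_right (Real.exp_le_exp.2 (neg_le_neg ?_))
          (le_trans (by positivity) k0')) h4
        have h3 : (k : ℝ) ≤ t := by
          have : k ≤ t := by omega
          exact_mod_cast this
        have h4 : 0 ≤ C4 / q := by positivity
        have h5 : (0 : ℝ) ≤ t := Nat.cast_nonneg t
        calc C4 / q * k ≤ C4 / q * t := mul_le_mul_of_nonneg_left h3 h4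
          _ ≤ C * E * t := by
              refine mul_le_mul_of_nonneg_right (hq5.trans ?_) h5
              refine mul_le_mul_of_nonneg_right ?_ hE.le
              rw [hC]
              have h7 : (1 : ℝ) ≤ 5 * (e + 3) + 33 := by linarith
              exact le_mul_of_one_le_left hC6.le h7

end bridge

end

end Pool.Agent.MG990.Wilson.H31YM
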