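import Mathlib
import Pool.Agent.Helper31_YM.Fin2

/-!
# The number of low-lying states
-/

open MeasureTheory Matrix Filter
open scoped Matrix.Norms.Frobenius Topology

namespace Pool.Agent.MG990.Wilson.H31YM

set_option linter.unusedSectionVars false
set_option linter.unusedVariables false

noncomputable section

open Pool.Agent Pool.Agent.H906R3 Pool.Agent.W793 Pool.Agent.TH618
open Pool.Agent.Y14.Wilson Pool.Agent.H31YM.Wilson

variable {N n d l D : ℕ} {G : Subgroup (UU N)}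

lemma assemble {K : ℕ} {F : (LinkZ (D + 1) → G) → ℝ} {x : Fin K → Fin (D + 1) → ℤ}
    {V : Submodule ℝ (Fin K → ℝ)} {cr : ((LinkZ (D + 1) → G) → ℝ) → ℕ → ℝ}
    (h0 : ∀ t, cr (fun _ => 0) t = 0) {c A : ℝ} (hc : 0 < c) {P : ℕ → Prop}
    (h : ∀ a ∈ V, 0 < ∑ i, a i ^ 2 → c * ∑ i, a i ^ 2 ≤ cr (comb F x a) 0 ∧
      ∀ t : ℕ, P t → Real.exp (-(A * t)) * cr (comb F x a) 0 ≤ cr (comb F x a) t) :
    Module.finrank ℝ (Wsp F x V) = Module.finrank ℝ V ∧ ∀ O ∈ Wsp F x V,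
      (O ≠ 0 → 0 < cr O 0) ∧ ∀ t : ℕ, P t → Real.exp (-(A * t)) * cr O 0 ≤ cr O t := by
  have hpos : ∀ a : Fin K → ℝ, a ≠ 0 → 0 < ∑ i, a i ^ 2 := by
    intro a ha
    obtain ⟨i, hi⟩ := Function.ne_iff.1 ha
    refine Finset.sum_pos' (fun j _ => sq_nonneg _) ⟨i, Finset.mem_univ _, ?_⟩
    exact lt_of_le_of_ne (sq_nonneg _) (Ne.symm (pow_ne_zero 2 hi))
  have hz : comb F x (0 : Fin K → ℝ) = fun _ => 0 := by
    funext V
    unfold comb
    simp
  refine ⟨Wsp_rank fun a ha h1 => ?_, fun O hO => ?_⟩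
  · by_contra h2
    have h3 := hpos a h2
    have h4 := (h a ha h3).1
    have h5 : comb F x a = fun _ => 0 := h1
    rw [h5, h0] at h4
    have : 0 < c * ∑ i, a i ^ 2 := by positivity
    linarith
  · obtain ⟨a, ha, rfl⟩ := mem_Wsp hO
    refine ⟨fun h1 => ?_, fun t ht => ?_⟩
    · have h2 : a ≠ 0 := by
        rintro rfl
        exact h1 hz
      have h3 := hpos a h2
      exact lt_of_lt_of_le (by positivity) (h a ha h3).1
    · by_cases h2 : a = 0
      · rw [h2, hz, h0, h0, mul_zero]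
      · exact (h a ha (hpos a h2)).2 t ht

theorem main {N n D : ℕ} (G : Subgroup (UU N)) (hG : IsClosed (G : Set (UU N)))
    [MeasurableSpace G] [BorelSpace G] (μ : Measure G) [IsProbabilityMeasure μ] [μ.IsHaarMeasure]
    (B : LieBasis G n) (hn : 1 ≤ n) (hD : 2 ≤ D) :
    ∃ C c β₀ : ℝ, 0 < C ∧ 0 < c ∧ 1 < β₀ ∧ ∀ β : ℝ, β₀ ≤ β → ∀ E : ℝ, rate D β ≤ E → E ≤ 1 →
      ∃ (R : ℕ) (F₀ : (LinkZ (D + 1) → G) → ℝ), (R : ℝ) * E ≤ C ∧ IsLocal R F₀ ∧
      AtTimeZero F₀ ∧ ∀ l : ℕ, C ≤ l * E →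
      (∀ [NeZero l], Even l → ∃ W : Submodule ℝ ((LinkZ (D + 1) → G) → ℝ),
        c * (l * E) ^ D ≤ Module.finrank ℝ W ∧
        W ≤ Submodule.span ℝ {O | ∃ y : Fin (D + 1) → ℤ, y (Fin.last D) = 0 ∧
          O = fun V => F₀ (shiftBy y V)} ∧
        ∀ F ∈ W, IsLocal l F ∧ AtTimeZero F ∧ (F ≠ 0 → 0 < corr l μ β F 0) ∧
          ∀ t : ℕ, Odd t → t < l →
            Real.exp (-(C * E * t)) * corr l μ β F 0 ≤ corr l μ β F t) ∧
      ∀ ν : Measure (LinkZ (D + 1) → G), IsInfVol μ β ν →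
        ∃ W : Submodule ℝ ((LinkZ (D + 1) → G) → ℝ),
        c * (l * E) ^ D ≤ Module.finrank ℝ W ∧
        W ≤ Submodule.span ℝ {O | ∃ y : Fin (D + 1) → ℤ, y (Fin.last D) = 0 ∧
          O = fun V => F₀ (shiftBy y V)} ∧
        ∀ F ∈ W, IsLocal l F ∧ AtTimeZero F ∧ (F ≠ 0 → 0 < corrZ ν F 0) ∧
          ∀ t : ℕ, Odd t → Real.exp (-(C * E * t)) * corrZ ν F 0 ≤ corrZ ν F t := by
  have : CompactSpace G := by
    have h1 : IsCompact (G : Set (UU N)) := hG.isCompact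
    exact isCompact_iff_compactSpace.1 h1
  have h00 : SecondCountableTopology (UU N) := TopologicalSpace.Subtype.secondCountableTopology _
  have : SecondCountableTopology G := TopologicalSpace.Subtype.secondCountableTopology _
  obtain ⟨e, rfl⟩ : ∃ e, D = e + 2 := ⟨D - 2, by omega⟩
  have hN : 1 ≤ N := by
    rcases Nat.eq_zero_or_pos N with h | h
    · subst h
      have h1 := B.orth ⟨0, hn⟩ ⟨0, hn⟩
      rw [if_pos rfl] at h1
      have h2 : trace ((B.X ⟨0, hn⟩)ᴴ * B.X ⟨0, hn⟩) = 0 := by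
        unfold Matrix.trace
        exact Finset.sum_empty
      rw [h2] at h1
      norm_num at h1
    · exact h
  obtain ⟨C, c, β₀, hC, hc, hβ₀, hmain⟩ := finite2 μ B hG hn hN e
  refine ⟨C, c, β₀, hC, hc, by linarith, fun β hβ E hxE hE1 => ?_⟩
  obtain ⟨R, F, τ, hR, hF, hF0, hτ, hE, hl⟩ := hmain β hβ E hxE hE1
  refine ⟨R, F, hR, hF, hF0, fun l hCl => ?_⟩
  obtain ⟨K, x, hK, hx, hloc, hcor⟩ := hl l hCl
  have hrank : ∀ V : Submodule ℝ (Fin K → ℝ), K ≤ 2 * Module.finrank ℝ V →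
      c * (l * E) ^ (e + 2) ≤ (Module.finrank ℝ V : ℕ) := by
    intro V hV
    have h1 : (K : ℝ) ≤ 2 * (Module.finrank ℝ V : ℕ) := by exact_mod_cast hV
    linarith
  refine ⟨fun {_} hle => ?_, fun ν hν => ?_⟩
  · obtain ⟨hd, hp, ha⟩ := hcor l hle le_rfl
    obtain ⟨V, hV, hVs⟩ := Pool.Agent.H31YM.spec (DD μ l β F x) (DD_symm μ F x) hp hτ hd
    obtain ⟨h1, h2⟩ := assemble (F := F) (x := x) (V := V) (cr := fun O t => corr l μ β O t)
      (fun t => corr_zero μ t) (A := C * E) hc (P := fun t => Odd t ∧ t < l)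
      fun a haV haS => by
        obtain ⟨k1, k2⟩ := ha a haS ((hVs a haV).trans (by nlinarith))
        exact ⟨k1, fun t ht => k2 t ht.1 ht.2⟩
    refine ⟨Wsp F x V, by rw [h1]; exact hrank V hV, Wsp_le hx V, fun O hO => ?_⟩
    obtain ⟨k1, k2⟩ := h2 O hO
    obtain ⟨a, -, rfl⟩ := mem_Wsp hO
    exact ⟨loc_comb hloc a, time_comb hF0 hx a, k1, fun t ht htl => k2 t ⟨ht, htl⟩⟩
  · obtain ⟨φ, hφ, hlim⟩ := hν.lim
    have hM : ∀ i k, Tendsto (fun j => DD μ (2 * (φ j + 1)) β F x i k) atTop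
        (𝓝 (DZ ν F x i k)) := fun i k => hlim _ _ (DD_local hloc i k)
    have hev : ∀ᶠ j in atTop, l ≤ 2 * (φ j + 1) := by
      filter_upwards [hφ.eventually_ge_atTop l] with j hj
      omega
    have hsum : ∀ a : Fin K → ℝ, Tendsto (fun j => ∑ i, ∑ k, a i * a k *
        DD μ (2 * (φ j + 1)) β F x i k) atTop (𝓝 (∑ i, ∑ k, a i * a k * DZ ν F x i k)) := fun a =>
      tendsto_finsetSum _ fun i _ => tendsto_finsetSum _ fun k _ => (hM i k).const_mul _
    obtain ⟨V, hV, hVs⟩ := Pool.Agent.H31YM.spec (DZ ν F x) (DZ_symm ν F x)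
      (fun a => ge_of_tendsto (hsum a) (by
        filter_upwards [hev] with j hj
        exact (hcor (2 * (φ j + 1)) (even_two_mul _) hj).2.1 a)) hτ
      (fun i => le_of_tendsto (hM i i) (by
        filter_upwards [hev] with j hj
        exact (hcor (2 * (φ j + 1)) (even_two_mul _) hj).1 i))
    obtain ⟨h1, h2⟩ := assemble (F := F) (x := x) (V := V) (cr := fun O t => corrZ ν O t)
      (fun t => corrZ_zero ν t) (A := C * E) hc (P := fun t => Odd t)
      fun a haV haS => by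
        have hOl := loc_comb hloc a
        have h3 : ∀ t, Tendsto (fun j => corr (2 * (φ j + 1)) μ β (comb F x a) t) atTop
            (𝓝 (corrZ ν (comb F x a) t)) :=
          fun t => (hlim _ _ (local_mul hOl t)).sub
            ((hlim _ _ hOl).mul (hlim _ _ (local_shift hOl t)))
        have h4 : ∀ᶠ j in atTop, ∑ i, ∑ k, a i * a k * DD μ (2 * (φ j + 1)) β F x i k ≤
            3 * τ * ∑ i, a i ^ 2 := by
          have h5 : ∑ i, ∑ k, a i * a k * DZ ν F x i k < 3 * τ * ∑ i, a i ^ 2 :=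
            lt_of_le_of_lt (hVs a haV) (by nlinarith)
          filter_upwards [(hsum a).eventually (gt_mem_nhds h5)] with j hj
          exact hj.le
        refine ⟨ge_of_tendsto (h3 0) ?_, fun t ht =>
          le_of_tendsto_of_tendsto ((h3 0).const_mul _) (h3 t) ?_⟩
        · filter_upwards [hev, h4] with j hj hj4
          exact ((hcor (2 * (φ j + 1)) (even_two_mul _) hj).2.2 a haS hj4).1
        · filter_upwards [hev, h4, hφ.eventually_ge_atTop t] with j hj hj4 hjt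
          exact ((hcor (2 * (φ j + 1)) (even_two_mul _) hj).2.2 a haS hj4).2 t ht (by omega)
    refine ⟨Wsp F x V, by rw [h1]; exact hrank V hV, Wsp_le hx V, fun O hO => ?_⟩
    obtain ⟨k1, k2⟩ := h2 O hO
    obtain ⟨a, -, rfl⟩ := mem_Wsp hO
    exact ⟨loc_comb hloc a, time_comb hF0 hx a, k1, fun t ht => k2 t ht⟩

end

end Pool.Agent.MG990.Wilson.H31YM
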